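import Pool.Agent.U553.HY.IndepConv
import Pool.Agent.N734.MZ.Mu
import Pool.Agent.X90.DD.Dist

/-!
# Linearly independent fronts
-/

set_option autoImplicit false

namespace Pool.Agent.U553.HY

open Finset Pool.Agent.X90.DC Pool.Agent.N665.LP
open Pool.Agent.Y760.ZG (mz)
open Pool.Agent.X90.DB (Ad)

lemma li_of_pi {X : Type} (f : X → ℝ) (c : X → ℚ) (n : X → ℕ) (hn : Function.Injective n) (hc : ∀ x, c x ≠ 0)
    (hf : ∀ x, f x = (c x : ℝ) * Real.pi ^ n x) : LinearIndependent ℚ f := by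
  classical
  rw [linearIndependent_iff']
  intro I l hl x hx
  set P : Polynomial ℚ := ∑ y ∈ I, Polynomial.monomial (n y) (l y * c y) with hP
  have h1 : Polynomial.aeval Real.pi P = 0 := by
    rw [hP, map_sum, ← hl]
    refine sum_congr rfl fun y _ => ?_
    rw [Polynomial.aeval_monomial, hf, Rat.smul_def, map_mul, eq_ratCast, eq_ratCast]
    ring
  have h2 := (transcendental_iff.1 Pool.Agent.H340R2.LW.transcendental_pi) P h1
  have h3 : P.coeff (n x) = l x * c x := by
    rw [hP, Polynomial.finsetSum_coeff, sum_eq_single x]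
    · rw [Polynomial.coeff_monomial, if_pos rfl]
    · intro y _ hy
      rw [Polynomial.coeff_monomial, if_neg fun h => hy (hn h)]
    · intro h
      exact absurd hx h
  rw [h2, Polynomial.coeff_zero] at h3
  exact (mul_eq_zero.1 h3.symm).resolve_right (hc x)

/-- the values at `2m, ..., 2m` -/
lemma li_even (m : ℕ) (hm : 1 ≤ m) : LinearIndependent ℚ
    fun q : {q : List ℕ // ∃ n : ℕ, q = List.replicate n (2 * m)} => mz q.1 := by
  have h1 : ∀ q : {q : List ℕ // ∃ n : ℕ, q = List.replicate n (2 * m)}, ∃ c : ℚ,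
      mz q.1 = (c : ℝ) * Real.pi ^ q.1.sum := by
    rintro ⟨q, n, rfl⟩
    rcases Nat.eq_zero_or_pos n with h | h
    · subst h
      refine ⟨1, ?_⟩
      simp only [List.replicate_zero, List.sum_nil, pow_zero, Rat.cast_one, mul_one]
      exact mz_nil
    · obtain ⟨c, hc⟩ := Pool.Agent.N734.MZ.mz_rep m n hm h
      refine ⟨c, ?_⟩
      rw [hc, List.sum_replicate, smul_eq_mul]
  choose c hc using h1
  refine li_of_pi _ c (fun q => q.1.sum) ?_ (fun q h0 => ?_) hc
  · rintro ⟨q, n, rfl⟩ ⟨q', n', rfl⟩ h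
    simp only [List.sum_replicate, smul_eq_mul] at h
    have : n = n' := Nat.eq_of_mul_eq_mul_right (by omega : 0 < 2 * m) h
    subst this
    rfl
  · have h2 := hc q
    rw [h0, Rat.cast_zero, zero_mul] at h2
    refine Pool.Agent.X90.DD.mz_ne ?_ h2
    obtain ⟨q, n, rfl⟩ := q
    exact Pool.Agent.N758.MT.ad_rep (by omega) n

/-- `1`, `ζ(2)`, `ζ(3)` -/
lemma li_23 : LinearIndependent ℚ fun q : {q : List ℕ // q = [] ∨ q = [2] ∨ q = [3]} => mz q.1 := by
  classical
  have h1 := Pool.Agent.LZ.Z3_linind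
  let g : {q : List ℕ // q = [] ∨ q = [2] ∨ q = [3]} → Fin 3 := fun q =>
    if q.1 = [] then 0 else if q.1 = [2] then 1 else 2
  have hg : Function.Injective g := by
    rintro ⟨q, hq⟩ ⟨q', hq'⟩ h
    rcases hq with rfl | rfl | rfl <;> rcases hq' with rfl | rfl | rfl <;> simp [g] at h ⊢
  have h2 := h1.comp g hg
  have h3 : (fun q : {q : List ℕ // q = [] ∨ q = [2] ∨ q = [3]} => mz q.1) =
      ![(1 : ℝ), Pool.Agent.H337R2.zr 2, Pool.Agent.H337R2.zr 3] ∘ g := by
    funext ⟨q, hq⟩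
    rcases hq with rfl | rfl | rfl
    · exact mz_nil
    · exact Pool.Agent.X90.DD.mz_zr 2
    · exact Pool.Agent.X90.DD.mz_zr 3
  rw [h3]
  exact h2

/-- one index of each weight -/
lemma li_one (Q : Set (List ℕ)) (hQ : ∀ q ∈ Q, q = [] ∨ Ad q)
    (h1 : ∀ q ∈ Q, ∀ q' ∈ Q, q.sum = q'.sum → q = q') (n : ℕ) :
    LinearIndependent ℚ fun q : {q : List ℕ // q ∈ Q ∧ q.sum = n} => mz q.1 := by
  classical
  rw [linearIndependent_iff']
  intro I l hl x hx
  have h2 : I = {x} := by
    ext y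
    rw [mem_singleton]
    constructor
    · intro _
      exact Subtype.ext (h1 _ y.2.1 _ x.2.1 (y.2.2.trans x.2.2.symm))
    · rintro rfl
      exact hx
  rw [h2, sum_singleton, Rat.smul_def] at hl
  rcases mul_eq_zero.1 hl with h3 | h3
  · exact_mod_cast h3
  · exact absurd h3 (Pool.Agent.X90.DD.mz_ne (hQ _ x.2.1))

end Pool.Agent.U553.HY
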