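import Pool.Agent.U553.HY.Core

/-!
# Hoffman elements and the dimensions
-/

set_option autoImplicit false

namespace Pool.Agent.U553.HY

open Finset Pool.Agent.X90.DC Pool.Agent.N665.LP
open Pool.Agent.Y760.ZG (mz)
open Pool.Agent.X90.DB (Ad ix)

/-- Zagier's numbers -/
def dz : ℕ → ℕ
  | 0 => 1
  | 1 => 0
  | 2 => 1
  | n + 3 => dz (n + 1) + dz n

/-- the words in the letters `2`, `3` of weight `n` -/
def wds : ℕ → List (List ℕ)
  | 0 => [[]]
  | 1 => []
  | 2 => [[2]]
  | n + 3 => (wds (n + 1)).map (2 :: ·) ++ (wds n).map (3 :: ·)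

/-- the words in the letters `2`, `3` -/
def H23 : Set (List ℕ) := {q | ∀ a ∈ q, a = 2 ∨ a = 3}

lemma h23_cl : ∀ q ∈ H23, ∀ q', q' <+: q → q' ∈ H23 :=
  fun _ hq _ h a ha => hq a (h.subset ha)

lemma h23_ad : ∀ q ∈ H23, q = [] ∨ Ad q := by
  intro q hq
  cases q with
  | nil => exact Or.inl rfl
  | cons a t =>
    right
    refine ⟨?_, fun b hb => ?_⟩
    · rcases hq a List.mem_cons_self with h | h <;> omega
    · rcases hq b (List.mem_cons_of_mem _ hb) with h | h <;> omega

lemma wds_length : ∀ n, (wds n).length = dz n := by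
  intro n
  induction n using wds.induct with
  | case1 => rfl
  | case2 => rfl
  | case3 => rfl
  | case4 n ih1 ih2 => rw [wds, dz, List.length_append, List.length_map, List.length_map, ih1, ih2]

lemma wds_nodup : ∀ n, (wds n).Nodup := by
  intro n
  induction n using wds.induct with
  | case1 => simp [wds]
  | case2 => simp [wds]
  | case3 => simp [wds]
  | case4 n ih1 ih2 =>
    rw [wds, List.nodup_append]
    refine ⟨ih1.map List.cons_injective, ih2.map List.cons_injective, fun a ha b hb hab => ?_⟩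
    rw [List.mem_map] at ha hb
    obtain ⟨x, _, rfl⟩ := ha
    obtain ⟨y, _, hy⟩ := hb
    rw [← hab, List.cons.injEq] at hy
    omega

lemma mem_wds : ∀ n q, q ∈ wds n ↔ q ∈ H23 ∧ q.sum = n := by
  intro n
  induction n using wds.induct with
  | case1 =>
    intro q
    rw [wds, List.mem_singleton]
    constructor
    · rintro rfl
      exact ⟨fun a ha => absurd ha List.not_mem_nil, rfl⟩
    · rintro ⟨h, hs⟩
      cases q with
      | nil => rfl
      | cons a t =>
        rw [List.sum_cons] at hs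
        rcases h a List.mem_cons_self with h | h <;> omega
  | case2 =>
    intro q
    rw [wds]
    constructor
    · intro h
      exact absurd h List.not_mem_nil
    · rintro ⟨h, hs⟩
      cases q with
      | nil => simp at hs
      | cons a t =>
        rw [List.sum_cons] at hs
        rcases h a List.mem_cons_self with h | h <;> omega
  | case3 =>
    intro q
    rw [wds, List.mem_singleton]
    constructor
    · rintro rfl
      exact ⟨fun a ha => by simp at ha; exact Or.inl ha, rfl⟩
    · rintro ⟨h, hs⟩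
      cases q with
      | nil => simp at hs
      | cons a t =>
        rw [List.sum_cons] at hs
        have ha := h a List.mem_cons_self
        have h2 : a = 2 := by rcases ha with h | h <;> omega
        cases t with
        | nil => rw [h2]
        | cons b u =>
          rw [List.sum_cons] at hs
          rcases h b (by simp) with h | h <;> omega
  | case4 n ih1 ih2 =>
    intro q
    rw [wds, List.mem_append, List.mem_map, List.mem_map]
    constructor
    · rintro (⟨t, ht, rfl⟩ | ⟨t, ht, rfl⟩)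
      · obtain ⟨h1, h2⟩ := (ih1 t).1 ht
        refine ⟨fun a ha => ?_, by rw [List.sum_cons]; omega⟩
        rcases List.mem_cons.1 ha with rfl | ha
        · exact Or.inl rfl
        · exact h1 a ha
      · obtain ⟨h1, h2⟩ := (ih2 t).1 ht
        refine ⟨fun a ha => ?_, by rw [List.sum_cons]; omega⟩
        rcases List.mem_cons.1 ha with rfl | ha
        · exact Or.inr rfl
        · exact h1 a ha
    · rintro ⟨h, hs⟩
      cases q with
      | nil => simp at hs
      | cons a t =>
        rw [List.sum_cons] at hs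
        have ht : t ∈ H23 := fun b hb => h b (List.mem_cons_of_mem _ hb)
        rcases h a List.mem_cons_self with rfl | rfl
        · exact Or.inl ⟨t, (ih1 t).2 ⟨ht, by omega⟩, rfl⟩
        · exact Or.inr ⟨t, (ih2 t).2 ⟨ht, by omega⟩, rfl⟩

/-- the span of the multiple zeta values of weight `n` -/
noncomputable def Zn (n : ℕ) : Submodule ℚ ℝ :=
  Submodule.span ℚ {x | ∃ l : List ℕ, (l = [] ∨ Ad l) ∧ l.sum = n ∧ x = mz l}

/-- words of weight `n` -/
noncomputable def eqW (n : ℕ) : {q : List ℕ // q ∈ H23 ∧ q.sum = n} ≃ (wds n).toFinset :=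
  Equiv.subtypeEquivRight fun q => by rw [List.mem_toFinset, mem_wds]

noncomputable instance (n : ℕ) : Fintype {q : List ℕ // q ∈ H23 ∧ q.sum = n} := Fintype.ofEquiv _ (eqW n).symm

lemma card_W (n : ℕ) : Fintype.card {q : List ℕ // q ∈ H23 ∧ q.sum = n} = dz n := by
  rw [Fintype.card_congr (eqW n), Fintype.card_coe, List.toFinset_card_of_nodup (wds_nodup n), wds_length]

/-- the Hoffman elements of weight `n` in the space -/
noncomputable def hv (n : ℕ) (q : {q : List ℕ // q ∈ H23 ∧ q.sum = n}) : Zn n :=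
  ⟨mz q.1, Submodule.subset_span ⟨q.1, h23_ad _ q.2.1, q.2.2, rfl⟩⟩

/-- **the lower bound for the dimension** -/
theorem dim_ge (n : ℕ) (h : LinearIndependent ℚ fun q : {q : List ℕ // q ∈ H23 ∧ q.sum = n} => mz q.1) :
    (dz n : Cardinal) ≤ Module.rank ℚ (Zn n) := by
  have h1 : LinearIndependent ℚ (hv n) := LinearIndependent.of_comp (Zn n).subtype h
  have h2 := h1.cardinal_le_rank
  rwa [Cardinal.mk_fintype, card_W] at h2

/-- **the converse**, with Brown's theorem -/
theorem li_of_dim (n : ℕ) (hB : Zn n ≤ Submodule.span ℚ {x | ∃ q ∈ H23, q.sum = n ∧ x = mz q})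
    (hd : Module.rank ℚ (Zn n) = dz n) :
    LinearIndependent ℚ fun q : {q : List ℕ // q ∈ H23 ∧ q.sum = n} => mz q.1 := by
  have h1 : ⊤ ≤ Submodule.span ℚ (Set.range (hv n)) := by
    rintro ⟨x, hx⟩ -
    have h2 := hB hx
    have h3 : {x | ∃ q ∈ H23, q.sum = n ∧ x = mz q} = (Zn n).subtype '' Set.range (hv n) := by
      ext y
      constructor
      · rintro ⟨q, hq, hs, rfl⟩
        exact ⟨_, ⟨⟨q, hq, hs⟩, rfl⟩, rfl⟩
      · rintro ⟨_, ⟨⟨q, hq, hs⟩, rfl⟩, rfl⟩
        exact ⟨q, hq, hs, rfl⟩
    rw [h3, Submodule.span_image, Submodule.mem_map] at h2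
    obtain ⟨y, hy, hyx⟩ := h2
    have : y = ⟨x, hx⟩ := Subtype.ext hyx
    rw [← this]
    exact hy
  have h2 : Fintype.card {q : List ℕ // q ∈ H23 ∧ q.sum = n} = Module.finrank ℚ (Zn n) := by
    rw [card_W, Module.finrank, hd, Cardinal.toNat_natCast]
  have h3 := linearIndependent_of_top_le_span_of_card_eq_finrank h1 h2
  exact h3.map' (Zn n).subtype (Submodule.ker_subtype _)

/-- the dimension, with Brown's theorem -/
theorem dim_eq (n : ℕ) (hB : Zn n ≤ Submodule.span ℚ {x | ∃ q ∈ H23, q.sum = n ∧ x = mz q})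
    (h : LinearIndependent ℚ fun q : {q : List ℕ // q ∈ H23 ∧ q.sum = n} => mz q.1) :
    Module.rank ℚ (Zn n) = dz n := by
  refine le_antisymm ?_ (dim_ge n h)
  refine (Submodule.rank_mono hB).trans ?_
  have h3 : {x | ∃ q ∈ H23, q.sum = n ∧ x = mz q} =
      Set.range fun q : {q : List ℕ // q ∈ H23 ∧ q.sum = n} => mz q.1 := by
    ext y
    constructor
    · rintro ⟨q, hq, hs, rfl⟩
      exact ⟨⟨q, hq, hs⟩, rfl⟩
    · rintro ⟨⟨q, hq, hs⟩, rfl⟩
      exact ⟨q, hq, hs, rfl⟩
  rw [h3]
  refine (rank_span_le _).trans (Cardinal.mk_range_le.trans ?_)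
  rw [Cardinal.mk_fintype, card_W]

/-- the whole family is independent if the families of one weight are and the sum is direct -/
theorem li_all (hd : iSupIndep Zn)
    (h : ∀ n, LinearIndependent ℚ fun q : {q : List ℕ // q ∈ H23 ∧ q.sum = n} => mz q.1) :
    LinearIndependent ℚ fun q : H23 => mz q.1 := by
  classical
  rw [linearIndependent_iff']
  intro I l hl q hq
  rw [iSupIndep_iff_finsetSum_eq_zero_imp_eq_zero] at hd
  have h1 := hd (I.image fun q => q.1.sum) (fun n => ∑ q ∈ I with q.1.sum = n, l q • mz q.1)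
    (fun n _ => Submodule.sum_mem _ fun q hq => Submodule.smul_mem _ _
      (Submodule.subset_span ⟨q.1, h23_ad _ q.2, (mem_filter.1 hq).2, rfl⟩)) (by
      rw [← hl]
      exact sum_fiberwise_of_maps_to (fun q hq => mem_image_of_mem _ hq) _) q.1.sum (mem_image_of_mem _ hq)
  set n := q.1.sum with hn
  have h2 := linearIndependent_iff'.1 (h n) (univ) (fun p => if hp : (⟨p.1, p.2.1⟩ : H23) ∈ I then l ⟨p.1, p.2.1⟩ else 0) (by
    rw [← h1]
    symm
    refine sum_bij_ne_zero (fun p hp _ => ⟨p.1, p.2, (mem_filter.1 hp).2⟩) (fun _ _ _ => mem_univ _) ?_ ?_ ?_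
    · intro a _ _ b _ _ hab
      exact Subtype.ext (congrArg (fun q : {q : List ℕ // q ∈ H23 ∧ q.sum = n} => q.1) hab)
    · intro b _ hb
      by_cases hbI : (⟨b.1, b.2.1⟩ : H23) ∈ I
      · rw [dif_pos hbI] at hb
        exact ⟨⟨b.1, b.2.1⟩, mem_filter.2 ⟨hbI, b.2.2⟩, hb, rfl⟩
      · rw [dif_neg hbI, zero_smul] at hb
        exact absurd rfl hb
    · intro a ha _
      have : (⟨a.1, a.2⟩ : H23) ∈ I := (mem_filter.1 ha).1
      rw [dif_pos this]) ⟨q.1, q.2, rfl⟩ (mem_univ _)
  rwa [dif_pos hq] at h2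

/-- **directness** from the independence of all Hoffman elements, with Brown's theorem -/
theorem direct_of_li (hB : ∀ n, Zn n ≤ Submodule.span ℚ {x | ∃ q ∈ H23, q.sum = n ∧ x = mz q})
    (h : LinearIndependent ℚ fun q : H23 => mz q.1) : iSupIndep Zn := by
  intro n
  have h1 : Disjoint {q : H23 | q.1.sum = n} {q : H23 | q.1.sum ≠ n} := by
    rw [Set.disjoint_left]
    exact fun q h1 h2 => h2 h1
  have h2 := h.disjoint_span_image h1
  have h3 : ∀ m, Zn m ≤ Submodule.span ℚ ((fun q : H23 => mz q.1) '' {q : H23 | q.1.sum = m}) := by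
    intro m
    refine (hB m).trans (Submodule.span_mono ?_)
    rintro x ⟨q, hq, hs, rfl⟩
    exact ⟨⟨q, hq⟩, hs, rfl⟩
  refine h2.mono (h3 n) (iSup₂_le fun m hm => (h3 m).trans (Submodule.span_mono (Set.image_mono fun q hq => ?_)))
  have hq : q.1.sum = m := hq
  show q.1.sum ≠ n
  rw [hq]
  exact hm

end Pool.Agent.U553.HY
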