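import Pool.Agent.U553.HY.Uncond

/-!
# Independence of the fronts and independence of patterns
-/

set_option autoImplicit false

namespace Pool.Agent.U553.HY

open Finset Pool.Agent.X90.DC Pool.Agent.N665.LP
open Pool.Agent.Y760.ZG (mz)
open Pool.Agent.X90.DB (Ad ix)

/-- the same weight at all tuples -/
def SameWt {k r : ℕ} (w : Fin r → List (Lr k)) : Prop :=
  ∀ i j (s : Fin k → ℕ), (ix s (w i)).sum = (ix s (w j)).sum

theorem indep_off {k r : ℕ} (Q : Set (List ℕ)) (hcl : ∀ q ∈ Q, ∀ q', q' <+: q → q' ∈ Q)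
    (w : Fin r → List (Lr k)) (hinj : Function.Injective w) (hw : ∀ i, Ge (w i) ∧ fpx (w i) ∈ Q)
    (h : LinearIndependent ℚ fun q : Q => mz q.1) : OffH w (NoRel w) := by
  refine indepH w (fun i => (hw i).1) hinj (Or.inl ?_)
  let g : {q : List ℕ // ∃ i, q <+: fpx (w i)} → Q := fun q => ⟨q.1, by
    obtain ⟨i, hi⟩ := q.2
    exact hcl _ (hw i).2 _ hi⟩
  exact h.comp g fun q q' hq => Subtype.ext (congrArg (fun q : Q => q.1) hq)

theorem indep_off_hom {k r : ℕ} (Q : Set (List ℕ)) (hcl : ∀ q ∈ Q, ∀ q', q' <+: q → q' ∈ Q)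
    (w : Fin r → List (Lr k)) (hinj : Function.Injective w) (hwt : SameWt w)
    (hw : ∀ i, Ge (w i) ∧ fpx (w i) ∈ Q)
    (h : ∀ n, LinearIndependent ℚ fun q : {q : List ℕ // q ∈ Q ∧ q.sum = n} => mz q.1) : OffH w (NoRel w) := by
  refine indepH w (fun i => (hw i).1) hinj (Or.inr ⟨hwt, fun n => ?_⟩)
  let g : {q : List ℕ // q.sum = n ∧ ∃ i, q <+: fpx (w i)} → {q : List ℕ // q ∈ Q ∧ q.sum = n} :=
    fun q => ⟨q.1, by
      obtain ⟨hn, i, hi⟩ := q.2
      exact ⟨hcl _ (hw i).2 _ hi, hn⟩⟩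
  exact (h n).comp g fun q q' hq => Subtype.ext (congrArg (fun q : {q : List ℕ // q ∈ Q ∧ q.sum = n} => q.1) hq)

/-- **arbitrary weights** -/
theorem coreI (Q : Set (List ℕ)) (hA : ∀ q ∈ Q, q = [] ∨ Ad q) (hcl : ∀ q ∈ Q, ∀ q', q' <+: q → q' ∈ Q) :
    List.TFAE [
      LinearIndependent ℚ fun q : Q => mz q.1,
      ∀ (k r : ℕ) (w : Fin r → List (Lr k)), Function.Injective w → (∀ i, Ge (w i) ∧ fpx (w i) ∈ Q) →
        OffH w (NoRel w),
      ∀ (k r : ℕ) (w : Fin r → List (Lr k)), Function.Injective w → (∀ i, Ge (w i) ∧ fpx (w i) ∈ Q) →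
        AlongD w (NoRel w),
      ∀ (r : ℕ) (w : Fin r → List (Lr 1)), Function.Injective w →
        (∀ i, Ge (w i) ∧ fpx (w i) ∈ Q ∧ ∃ u ∈ w i, u.2 ≠ 0) →
        ∀ B : ℝ, ∃ s : Fin 1 → ℕ, 2 ≤ s 0 ∧ NoRel w B s] := by
  tfae_have 1 → 2 := fun h k r w hinj hw => indep_off Q hcl w hinj hw h
  tfae_have 2 → 3 := fun h k r w hinj hw => (h k r w hinj hw).along
  tfae_have 3 → 4 := fun h r w hinj hw B =>
    (h 1 r w hinj fun i => ⟨(hw i).1, (hw i).2.1⟩).exists_one (fun _ _ _ hB h' => h'.mono hB) B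
  tfae_have 4 → 1 := fun h => indep_of_one Q Q hA subset_rfl hcl fun r w hinj hw B =>
    h r w hinj (fun i => ⟨(hw i).1, (hw i).2.1, (hw i).2.2.1⟩) B
  tfae_finish

/-- **one weight** -/
theorem coreW (Q : Set (List ℕ)) (hA : ∀ q ∈ Q, q = [] ∨ Ad q) (hcl : ∀ q ∈ Q, ∀ q', q' <+: q → q' ∈ Q) :
    List.TFAE [
      ∀ n, LinearIndependent ℚ fun q : {q : List ℕ // q ∈ Q ∧ q.sum = n} => mz q.1,
      ∀ (k r : ℕ) (w : Fin r → List (Lr k)), Function.Injective w → SameWt w →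
        (∀ i, Ge (w i) ∧ fpx (w i) ∈ Q) → OffH w (NoRel w),
      ∀ (k r : ℕ) (w : Fin r → List (Lr k)), Function.Injective w → SameWt w →
        (∀ i, Ge (w i) ∧ fpx (w i) ∈ Q) → AlongD w (NoRel w),
      ∀ (r : ℕ) (w : Fin r → List (Lr 1)), Function.Injective w → SameWt w →
        (∀ i, Ge (w i) ∧ fpx (w i) ∈ Q ∧ ∃ u ∈ w i, u.2 ≠ 0) →
        ∀ B : ℝ, ∃ s : Fin 1 → ℕ, 2 ≤ s 0 ∧ NoRel w B s] := by
  tfae_have 1 → 2 := fun h k r w hinj hwt hw => indep_off_hom Q hcl w hinj hwt hw h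
  tfae_have 2 → 3 := fun h k r w hinj hwt hw => (h k r w hinj hwt hw).along
  tfae_have 3 → 4 := fun h r w hinj hwt hw B =>
    (h 1 r w hinj hwt fun i => ⟨(hw i).1, (hw i).2.1⟩).exists_one (fun _ _ _ hB h' => h'.mono hB) B
  tfae_have 4 → 1 := fun h n => indep_of_one Q {q | q ∈ Q ∧ q.sum = n} hA (fun q hq => hq.1) hcl
    fun r w hinj hw B => h r w hinj (fun i j s => by
      obtain ⟨q, hq, hqs⟩ := (hw i).2.2.2
      obtain ⟨q', hq', hqs'⟩ := (hw j).2.2.2
      rw [hqs s, hqs' s, hq.2, hq'.2]) (fun i => ⟨(hw i).1, (hw i).2.1, (hw i).2.2.1⟩) B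
  tfae_finish

/-- the fronts `(2m, ..., 2m)` -/
theorem off_even {k r : ℕ} (m : ℕ) (hm : 1 ≤ m) (w : Fin r → List (Lr k)) (hinj : Function.Injective w)
    (hw : ∀ i, Ge (w i) ∧ ∃ n : ℕ, fpx (w i) = List.replicate n (2 * m)) : OffH w (NoRel w) := by
  refine indep_off {q | ∃ n : ℕ, q = List.replicate n (2 * m)} ?_ w hinj hw (li_even m hm)
  rintro q ⟨n, rfl⟩ q' hq
  refine ⟨q'.length, ?_⟩
  rw [List.eq_replicate_iff]
  exact ⟨rfl, fun b hb => List.eq_of_mem_replicate (hq.subset hb)⟩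

/-- the fronts `()`, `(2)`, `(3)` -/
theorem off_23 {k r : ℕ} (w : Fin r → List (Lr k)) (hinj : Function.Injective w)
    (hw : ∀ i, Ge (w i) ∧ (fpx (w i) = [] ∨ fpx (w i) = [2] ∨ fpx (w i) = [3])) : OffH w (NoRel w) := by
  refine indep_off {q | q = [] ∨ q = [2] ∨ q = [3]} ?_ w hinj hw li_23
  have key : ∀ a : ℕ, ∀ q' : List ℕ, q' <+: [a] → q' = [] ∨ q' = [a] := by
    intro a q' h
    have hl := h.length_le
    rcases Nat.lt_or_ge q'.length 1 with h1 | h1
    · exact Or.inl (List.length_eq_zero_iff.1 (by omega))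
    · exact Or.inr (h.eq_of_length (by simp only [List.length_singleton] at hl ⊢; omega))
  rintro q (rfl | rfl | rfl) q' hq
  · exact Or.inl (List.prefix_nil.1 hq)
  · rcases key 2 q' hq with h | h
    · exact Or.inl h
    · exact Or.inr (Or.inl h)
  · rcases key 3 q' hq with h | h
    · exact Or.inl h
    · exact Or.inr (Or.inr h)

/-- the fronts `(2, ..., 2)` and `(2, ..., 2, 3)`, one weight -/
theorem off_hom {k r : ℕ} (w : Fin r → List (Lr k)) (hinj : Function.Injective w) (hwt : SameWt w)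
    (hw : ∀ i, Ge (w i) ∧ ∃ n : ℕ, fpx (w i) = List.replicate n 2 ∨ fpx (w i) = List.replicate n 2 ++ [3]) :
    OffH w (NoRel w) := by
  have hcl : ∀ q ∈ {q : List ℕ | ∃ n : ℕ, q = List.replicate n 2 ∨ q = List.replicate n 2 ++ [3]}, ∀ q',
      q' <+: q → q' ∈ {q : List ℕ | ∃ n : ℕ, q = List.replicate n 2 ∨ q = List.replicate n 2 ++ [3]} := by
    rintro q ⟨n, rfl | rfl⟩ q' hq
    · refine ⟨q'.length, Or.inl ?_⟩
      rw [List.eq_replicate_iff]
      exact ⟨rfl, fun b hb => List.eq_of_mem_replicate (hq.subset hb)⟩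
    · rcases List.prefix_concat_iff.1 hq with h | h
      · exact ⟨n, Or.inr h⟩
      · refine ⟨q'.length, Or.inl ?_⟩
        rw [List.eq_replicate_iff]
        exact ⟨rfl, fun b hb => List.eq_of_mem_replicate (h.subset hb)⟩
  refine indep_off_hom _ hcl w hinj hwt hw fun n => li_one _ ?_ ?_ n
  · rintro q ⟨n, rfl | rfl⟩
    · exact Pool.Agent.N758.MT.ad_rep le_rfl n
    · right
      cases n with
      | zero => exact ⟨by norm_num, by simp⟩
      | succ n =>
        refine ⟨le_rfl, fun t ht => ?_⟩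
        have ht : t ∈ List.replicate n 2 ++ [3] := ht
        rw [List.mem_append] at ht
        rcases ht with ht | ht
        · rw [List.eq_of_mem_replicate ht]
          norm_num
        · rw [List.mem_singleton] at ht
          rw [ht]
          norm_num
  · rintro q ⟨n, hq⟩ q' ⟨n', hq'⟩ h
    rcases hq with rfl | rfl <;> rcases hq' with rfl | rfl <;>
      simp only [List.sum_append, List.sum_replicate, List.sum_cons, List.sum_nil, smul_eq_mul] at h
    · have : n = n' := by omega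
      rw [this]
    · omega
    · omega
    · have : n = n' := by omega
      rw [this]

end Pool.Agent.U553.HY
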