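import Pool.Agent.X90.DC.Gen2

/-!
# Sets of tuples without general position are covered by few hyperplanes
-/

set_option autoImplicit false

namespace Pool.Agent.U553.HY

open Finset
open Pool.Agent.X90.DB (GT)

/-- at most `K` hyperplanes with integer coefficients, the coefficients of the variables being at most `K`, contain the
tuples of `B` -/
def Cov {k : ℕ} (K : ℕ) (B : Set (Fin k → ℕ)) : Prop :=
  ∃ H : Finset ((Fin k → ℤ) × ℤ), H.card ≤ K ∧ (∀ h ∈ H, h.1 ≠ 0 ∧ ∀ j, |h.1 j| ≤ K) ∧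
    ∀ s ∈ B, ∃ h ∈ H, ∑ j, h.1 j * (s j : ℤ) = h.2

lemma Cov.mono {k K : ℕ} {B B' : Set (Fin k → ℕ)} (h : Cov K B) (hB : B' ⊆ B) : Cov K B' := by
  obtain ⟨H, h1, h2, h3⟩ := h
  exact ⟨H, h1, h2, fun s hs => h3 s (hB hs)⟩

lemma Cov.le {k K K' : ℕ} {B : Set (Fin k → ℕ)} (h : Cov K B) (hK : K ≤ K') : Cov K' B := by
  obtain ⟨H, h1, h2, h3⟩ := h
  exact ⟨H, h1.trans hK, fun h hh => ⟨(h2 h hh).1, fun j => ((h2 h hh).2 j).trans (by exact_mod_cast hK)⟩, h3⟩

lemma Cov.union {k K K' : ℕ} {B B' : Set (Fin k → ℕ)} (h : Cov K B) (h' : Cov K' B') :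
    Cov (K + K') (B ∪ B') := by
  classical
  obtain ⟨H, h1, h2, h3⟩ := h
  obtain ⟨H', h1', h2', h3'⟩ := h'
  refine ⟨H ∪ H', (card_union_le _ _).trans (Nat.add_le_add h1 h1'), fun h hh => ?_, fun s hs => ?_⟩
  · rcases mem_union.1 hh with hh | hh
    · refine ⟨(h2 h hh).1, fun j => ((h2 h hh).2 j).trans ?_⟩
      exact_mod_cast Nat.le_add_right _ _
    · refine ⟨(h2' h hh).1, fun j => ((h2' h hh).2 j).trans ?_⟩
      exact_mod_cast Nat.le_add_left _ _
  · rcases hs with hs | hs
    · obtain ⟨h, hh, he⟩ := h3 s hs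
      exact ⟨h, mem_union_left _ hh, he⟩
    · obtain ⟨h, hh, he⟩ := h3' s hs
      exact ⟨h, mem_union_right _ hh, he⟩

lemma Cov.empty {k : ℕ} : Cov 0 (∅ : Set (Fin k → ℕ)) :=
  ⟨∅, by simp, by simp, by simp⟩

/-- **a set of tuples without `m` tuples in general position is covered by few hyperplanes** -/
theorem cov_noGT {k : ℕ} (Q : ℕ) (B : Set (Fin k → ℕ)) :
    ∀ m : ℕ, (∀ s : Fin m → Fin k → ℕ, (∀ i, s i ∈ B) → ¬ GT Q s) →
      Cov ((2 * Q + 1) ^ (1 + m * k)) B := by
  classical
  intro m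
  induction m with
  | zero =>
    intro h
    exfalso
    refine h (fun i => i.elim0) (fun i => i.elim0) fun c0 c hc => ?_
    exact absurd (Subsingleton.elim c 0) hc
  | succ m ih =>
    intro h
    by_cases hm : ∀ s : Fin m → Fin k → ℕ, (∀ i, s i ∈ B) → ¬ GT Q s
    · refine (ih hm).le (Nat.pow_le_pow_right (by omega) ?_)
      exact Nat.add_le_add_left (Nat.mul_le_mul_right _ (Nat.le_succ m)) 1
    · push Not at hm
      obtain ⟨s, hsB, hs⟩ := hm
      -- the index set of the hyperplanes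
      set U : Finset (ℤ × (Fin (m + 1) → Fin k → ℤ)) :=
        (Finset.Icc (-(Q : ℤ)) Q) ×ˢ (Fintype.piFinset fun _ : Fin (m + 1) =>
          Fintype.piFinset fun _ : Fin k => Finset.Icc (-(Q : ℤ)) Q) with hU
      have hUc : U.card = (2 * Q + 1) ^ (1 + (m + 1) * k) := by
        rw [hU, card_product, Fintype.card_piFinset, prod_const, Fintype.card_piFinset, prod_const,
          card_univ, card_univ, Fintype.card_fin, Fintype.card_fin, Int.card_Icc]
        have h1 : ((Q : ℤ) + 1 - -(Q : ℤ)).toNat = 2 * Q + 1 := by omega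
        rw [h1, ← pow_mul, pow_add, pow_one, mul_comm k (m + 1)]
      have hQle : (Q : ℤ) ≤ (((2 * Q + 1) ^ (1 + (m + 1) * k) : ℕ) : ℤ) := by
        have h1 : 2 * Q + 1 ≤ (2 * Q + 1) ^ (1 + (m + 1) * k) := by
          calc 2 * Q + 1 = (2 * Q + 1) ^ 1 := (pow_one _).symm
            _ ≤ _ := Nat.pow_le_pow_right (by omega) (by omega)
        have h2 : Q ≤ (2 * Q + 1) ^ (1 + (m + 1) * k) := by omega
        exact_mod_cast h2
      refine ⟨(U.filter fun p => p.2 (Fin.last m) ≠ 0).image fun p =>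
        (p.2 (Fin.last m), -(p.1 + ∑ i : Fin m, ∑ j, p.2 i.castSucc j * (s i j : ℤ))), ?_, ?_, ?_⟩
      · refine card_image_le.trans ((card_le_card (filter_subset _ _)).trans hUc.le)
      · intro h' hh'
        rw [mem_image] at hh'
        obtain ⟨p, hp, rfl⟩ := hh'
        rw [mem_filter, hU, mem_product, Fintype.mem_piFinset] at hp
        refine ⟨hp.2, fun j => le_trans ?_ hQle⟩
        have h1 := hp.1.2 (Fin.last m)
        rw [Fintype.mem_piFinset] at h1
        exact abs_le.2 (mem_Icc.1 (h1 j))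
      · intro t ht
        have h1 := h (Fin.snoc s t) (fun i => by
          refine Fin.lastCases ?_ (fun i => ?_) i
          · rw [Fin.snoc_last]
            exact ht
          · rw [Fin.snoc_castSucc]
            exact hsB i)
        rw [GT] at h1
        push Not at h1
        obtain ⟨c0, c, hc, hc0, hcQ, hrel⟩ := h1
        rw [Fin.sum_univ_castSucc] at hrel
        simp only [Fin.snoc_castSucc, Fin.snoc_last] at hrel
        have hlast : c (Fin.last m) ≠ 0 := by
          intro h0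
          refine hs c0 (fun i => c i.castSucc) ?_ hc0 (fun i j => hcQ _ j) ?_
          · intro h2
            apply hc
            funext i
            refine Fin.lastCases ?_ (fun i => ?_) i
            · exact h0
            · exact congrFun h2 i
          · rw [h0] at hrel
            simp only [Pi.zero_apply, zero_mul, sum_const_zero, add_zero] at hrel
            exact hrel
        refine ⟨_, mem_image.2 ⟨(c0, c), ?_, rfl⟩, ?_⟩
        · rw [mem_filter, hU, mem_product, Fintype.mem_piFinset]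
          refine ⟨⟨mem_Icc.2 (abs_le.1 hc0), fun i => ?_⟩, hlast⟩
          rw [Fintype.mem_piFinset]
          exact fun j => mem_Icc.2 (abs_le.1 (hcQ i j))
        · simp only
          linarith

/-- the number of the tuples in a box -/
lemma Cov.card {k K N N' : ℕ} {B : Finset (Fin k → ℕ)} (h : Cov K (B : Set (Fin k → ℕ)))
    (hB : ∀ s ∈ B, ∀ j, N ≤ s j ∧ s j ≤ N') : B.card ≤ K * (N' + 1 - N) ^ (k - 1) := by
  classical
  obtain ⟨H, h1, h2, h3⟩ := h
  have hsub : B ⊆ H.biUnion fun h => (Fintype.piFinset fun _ : Fin k => Finset.Icc N N').filter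
      fun s => ∑ j, h.1 j * (s j : ℤ) = h.2 := by
    intro s hs
    obtain ⟨h, hh, he⟩ := h3 s hs
    rw [mem_biUnion]
    refine ⟨h, hh, ?_⟩
    rw [mem_filter, Fintype.mem_piFinset]
    exact ⟨fun j => mem_Icc.2 (hB s hs j), he⟩
  calc B.card ≤ _ := card_le_card hsub
    _ ≤ ∑ _h ∈ H, (N' + 1 - N) ^ (k - 1) := by
        refine card_biUnion_le.trans (sum_le_sum fun h hh => ?_)
        exact Pool.Agent.X90.DB.card_plane N N' _ (h2 h hh).1 _
    _ = H.card * (N' + 1 - N) ^ (k - 1) := by rw [sum_const, smul_eq_mul]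
    _ ≤ _ := Nat.mul_le_mul_right _ h1

end Pool.Agent.U553.HY
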