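import Pool.Agent.U553.HY.Cov

/-!
# Dispersed families of sequences and sets of tuples covered by few hyperplanes
-/

set_option autoImplicit false

namespace Pool.Agent.U553.HY

open Finset

/-- for every nonzero integer vector `b` the intervals of length two contain a bounded number of the numbers
`∑ b_j F_j(n)`, `n = 0, 1, 2, …` -/
def Disp {k : ℕ} (F : Fin k → ℕ → ℝ) : Prop :=
  ∀ b : Fin k → ℤ, b ≠ 0 → ∃ L : ℕ, ∀ c : ℝ, {n : ℕ | |∑ j, (b j : ℝ) * F j n - c| ≤ 1}.encard ≤ L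

/-- longer intervals -/
lemma long {g : ℕ → ℝ} {L : ℕ} (h : ∀ c : ℝ, {n : ℕ | |g n - c| ≤ 1}.encard ≤ L) (M : ℕ) (c R : ℝ)
    (hR : R ≤ M) : {n : ℕ | |g n - c| ≤ R}.encard ≤ ((M + 1) * L : ℕ) := by
  classical
  have hsub : {n : ℕ | |g n - c| ≤ R} ⊆ ⋃ i ∈ (Finset.range (M + 1) : Finset ℕ),
      {n : ℕ | |g n - (c - M + 2 * i)| ≤ 1} := by
    intro n hn
    rw [Set.mem_ofPred_eq] at hn
    obtain ⟨h1, h2⟩ := abs_le.1 (hn.trans hR)
    have h3 : 0 ≤ (g n - c + M + 1) / 2 := by linarith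
    simp only [Set.mem_iUnion, exists_prop, Set.mem_ofPred_eq, Finset.mem_range]
    refine ⟨⌊(g n - c + M + 1) / 2⌋₊, ?_, ?_⟩
    · rw [Nat.floor_lt h3]
      push_cast
      linarith
    · have h4 := Nat.floor_le h3
      have h5 := Nat.lt_floor_add_one ((g n - c + M + 1) / 2)
      rw [abs_le]
      constructor <;> linarith
  refine (Set.encard_le_encard hsub).trans ?_
  have key : ∀ S : Finset ℕ, (⋃ i ∈ S, {n : ℕ | |g n - (c - M + 2 * (i : ℝ))| ≤ 1}).encard ≤ (S.card * L : ℕ) := by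
    intro S
    induction S using Finset.induction_on with
    | empty => simp
    | insert a S ha ih =>
      rw [Finset.set_biUnion_insert, Finset.card_insert_of_notMem ha, add_mul, one_mul]
      refine (Set.encard_union_le _ _).trans ?_
      rw [add_comm, Nat.cast_add]
      exact add_le_add ih (h _)
  have := key (Finset.range (M + 1))
  rwa [Finset.card_range] at this

/-- **tuples near the values of dispersed sequences avoid few hyperplanes** -/
theorem disp_cov {k : ℕ} {F : Fin k → ℕ → ℝ} (hF : Disp F) (K : ℕ) : ∃ K' : ℕ, ∀ B : Set (Fin k → ℕ), Cov K B →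
    ∀ W : ℕ, {n : ℕ | ∃ s ∈ B, ∀ j, |(s j : ℝ) - F j n| ≤ W}.encard ≤ (K' * (W + 1) : ℕ) := by
  classical
  -- the hyperplanes
  set U : Finset (Fin k → ℤ) := (Fintype.piFinset fun _ : Fin k => Finset.Icc (-(K : ℤ)) K).filter fun b => b ≠ 0
    with hU
  have h1 : ∃ L : ℕ, ∀ b ∈ U, ∀ c : ℝ, {n : ℕ | |∑ j, (b j : ℝ) * F j n - c| ≤ 1}.encard ≤ L := by
    have h2 : ∀ b : Fin k → ℤ, ∃ L : ℕ, b ≠ 0 → ∀ c : ℝ, {n : ℕ | |∑ j, (b j : ℝ) * F j n - c| ≤ 1}.encard ≤ L := by
      intro b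
      by_cases hb : b = 0
      · exact ⟨0, fun h => absurd hb h⟩
      · obtain ⟨L, hL⟩ := hF b hb
        exact ⟨L, fun _ => hL⟩
    choose L hL using h2
    refine ⟨∑ b ∈ U, L b, fun b hb c => (hL b (mem_filter.1 hb).2 c).trans ?_⟩
    exact_mod_cast single_le_sum (f := L) (fun _ _ => Nat.zero_le _) hb
  obtain ⟨L, hL⟩ := h1
  refine ⟨K * ((k * K + 1) * L), fun B hB W => ?_⟩
  obtain ⟨H, hH1, hH2, hH3⟩ := hB
  have hsub : {n : ℕ | ∃ s ∈ B, ∀ j, |(s j : ℝ) - F j n| ≤ W} ⊆ ⋃ h ∈ H,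
      {n : ℕ | |∑ j, (h.1 j : ℝ) * F j n - h.2| ≤ ((k * K * W : ℕ) : ℝ)} := by
    rintro n ⟨s, hs, hn⟩
    obtain ⟨h, hh, he⟩ := hH3 s hs
    simp only [Set.mem_iUnion, exists_prop, Set.mem_ofPred_eq]
    refine ⟨h, hh, ?_⟩
    have he' : ∑ j, (h.1 j : ℝ) * (s j : ℝ) = h.2 := by exact_mod_cast he
    rw [← he', ← sum_sub_distrib]
    calc |∑ j, ((h.1 j : ℝ) * F j n - (h.1 j : ℝ) * (s j : ℝ))| ≤
        ∑ j, |(h.1 j : ℝ) * F j n - (h.1 j : ℝ) * (s j : ℝ)| := abs_sum_le_sum_abs _ _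
      _ ≤ ∑ _j : Fin k, (K : ℝ) * W := by
          refine sum_le_sum fun j _ => ?_
          rw [← mul_sub, abs_mul, abs_sub_comm]
          refine mul_le_mul ?_ (hn j) (abs_nonneg _) (Nat.cast_nonneg _)
          exact_mod_cast (hH2 h hh).2 j
      _ = _ := by
          rw [sum_const, card_univ, Fintype.card_fin, nsmul_eq_mul]
          push_cast
          ring
  refine (Set.encard_le_encard hsub).trans ?_
  have hU' : ∀ h ∈ H, h.1 ∈ U := by
    intro h hh
    rw [hU, mem_filter, Fintype.mem_piFinset]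
    exact ⟨fun j => mem_Icc.2 (abs_le.1 ((hH2 h hh).2 j)), (hH2 h hh).1⟩
  have key : ∀ S : Finset ((Fin k → ℤ) × ℤ), S ⊆ H → (⋃ h ∈ S,
      {n : ℕ | |∑ j, (h.1 j : ℝ) * F j n - h.2| ≤ ((k * K * W : ℕ) : ℝ)}).encard ≤
        (S.card * ((k * K * W + 1) * L) : ℕ) := by
    intro S
    induction S using Finset.induction_on with
    | empty => simp
    | insert a S ha ih =>
      intro hS
      rw [Finset.set_biUnion_insert, Finset.card_insert_of_notMem ha, add_mul, one_mul]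
      refine (Set.encard_union_le _ _).trans ?_
      rw [add_comm, Nat.cast_add]
      exact add_le_add (ih fun x hx => hS (mem_insert_of_mem hx))
        (long (hL _ (hU' _ (hS (mem_insert_self _ _)))) _ _ _ le_rfl)
  refine (key H Subset.rfl).trans ?_
  have h3 : H.card * ((k * K * W + 1) * L) ≤ K * ((k * K + 1) * L) * (W + 1) := by
    calc H.card * ((k * K * W + 1) * L) ≤ K * ((k * K * W + 1) * L) := Nat.mul_le_mul_right _ hH1
      _ ≤ K * (((k * K + 1) * (W + 1)) * L) := by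
          refine Nat.mul_le_mul_left _ (Nat.mul_le_mul_right _ ?_)
          nlinarith
      _ = _ := by ring
  exact_mod_cast h3

/-- a polynomial with positive leading coefficient and positive degree -/
lemma poly_pos (q : Polynomial ℝ) (hq : 0 < q.natDegree) (hl : 0 < q.leadingCoeff) :
    ∃ L : ℕ, ∀ c : ℝ, {n : ℕ | |q.eval (n : ℝ) - c| ≤ 1}.encard ≤ L := by
  classical
  -- the derivative
  have h1 : ∃ δ : ℝ, 0 < δ ∧ ∃ x0 : ℕ, ∀ x : ℝ, (x0 : ℝ) ≤ x → δ ≤ q.derivative.eval x := by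
    have hlead : 0 < q.derivative.leadingCoeff := by
      have h2 : q.derivative.natDegree = q.natDegree - 1 := q.natDegree_derivative
      rw [Polynomial.leadingCoeff, h2, Polynomial.coeff_derivative, Nat.sub_add_cancel hq]
      have h3 : (0 : ℝ) ≤ ((q.natDegree - 1 : ℕ) : ℝ) := Nat.cast_nonneg _
      exact mul_pos hl (by linarith)
    rcases Nat.eq_zero_or_pos q.derivative.natDegree with h0 | h0
    · obtain ⟨a, ha⟩ := Polynomial.natDegree_eq_zero.1 h0
      refine ⟨q.derivative.leadingCoeff, hlead, 0, fun x _ => ?_⟩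
      rw [← ha]
      simp
    · have h3 := Polynomial.tendsto_atTop_of_leadingCoeff_nonneg q.derivative
        (Polynomial.natDegree_pos_iff_degree_pos.1 h0) hlead.le
      obtain ⟨x0, hx0⟩ := Filter.eventually_atTop.1 (h3.eventually_ge_atTop 1)
      obtain ⟨m, hm⟩ := exists_nat_ge x0
      exact ⟨1, one_pos, m, fun x hx => hx0 x (hm.trans hx)⟩
  obtain ⟨δ, hδ, x0, hx0⟩ := h1
  have hmono : ∀ x y : ℝ, (x0 : ℝ) ≤ x → x ≤ y → δ * (y - x) ≤ q.eval y - q.eval x := by
    intro x y hx hxy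
    refine Convex.mul_sub_le_image_sub_of_le_deriv (convex_Ici (x0 : ℝ)) q.continuous.continuousOn
      q.differentiable.differentiableOn (fun z hz => ?_) x hx y (hx.trans hxy) hxy
    rw [Polynomial.deriv]
    rw [interior_Ici] at hz
    exact hx0 z (le_of_lt hz)
  obtain ⟨m, hm⟩ := exists_nat_ge (2 / δ)
  refine ⟨x0 + (m + 1), fun c => ?_⟩
  have hsplit : {n : ℕ | |q.eval (n : ℝ) - c| ≤ 1} ⊆ (Finset.range x0 : Set ℕ) ∪
      {n : ℕ | x0 ≤ n ∧ |q.eval (n : ℝ) - c| ≤ 1} := by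
    intro n hn
    rcases Nat.lt_or_ge n x0 with h | h
    · exact Or.inl (by simpa using h)
    · exact Or.inr ⟨h, hn⟩
  refine (Set.encard_le_encard hsplit).trans ((Set.encard_union_le _ _).trans ?_)
  rw [Nat.cast_add]
  refine add_le_add ?_ ?_
  · rw [Set.encard_coe_eq_coe_finsetCard, Finset.card_range]
  · rcases Set.eq_empty_or_nonempty {n : ℕ | x0 ≤ n ∧ |q.eval (n : ℝ) - c| ≤ 1} with h0 | h0
    · rw [h0]
      simp
    · -- the least element
      set a := sInf {n : ℕ | x0 ≤ n ∧ |q.eval (n : ℝ) - c| ≤ 1} with ha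
      have ha1 := Nat.sInf_mem h0
      rw [← ha] at ha1
      have hsub : {n : ℕ | x0 ≤ n ∧ |q.eval (n : ℝ) - c| ≤ 1} ⊆ (Finset.Icc a (a + m) : Set ℕ) := by
        intro n hn
        have h2 : a ≤ n := Nat.sInf_le hn
        rw [Finset.coe_Icc]
        refine ⟨h2, ?_⟩
        have h3 := hmono a n (by exact_mod_cast ha1.1) (by exact_mod_cast h2)
        have h4 := (abs_le.1 hn.2).2
        have h5 := (abs_le.1 ha1.2).1
        have h6 : δ * ((n : ℝ) - a) ≤ 2 := by linarith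
        have h7 : (n : ℝ) - a ≤ m := by
          refine le_trans ?_ hm
          rw [le_div_iff₀ hδ]
          linarith
        have h8 : (n : ℝ) ≤ ((a + m : ℕ) : ℝ) := by
          push_cast
          linarith
        exact_mod_cast h8
      refine (Set.encard_le_encard hsub).trans ?_
      rw [Set.encard_coe_eq_coe_finsetCard, Nat.card_Icc]
      have : a + m + 1 - a = m + 1 := by omega
      rw [this]

/-- **polynomials with independent nonconstant parts are dispersed** -/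
theorem disp_poly {k : ℕ} (p : Fin k → Polynomial ℝ)
    (hp : ∀ b : Fin k → ℤ, b ≠ 0 → 0 < (∑ j, (b j : ℝ) • p j).natDegree) :
    Disp fun j n => (p j).eval (n : ℝ) := by
  intro b hb
  set q := ∑ j, (b j : ℝ) • p j with hq
  have h1 : 0 < q.natDegree := hp b hb
  have h2 : ∀ n : ℕ, ∑ j, (b j : ℝ) * (p j).eval (n : ℝ) = q.eval (n : ℝ) := by
    intro n
    rw [hq, Polynomial.eval_finsetSum]
    exact sum_congr rfl fun j _ => by rw [Polynomial.eval_smul, smul_eq_mul]
  simp only [h2]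
  rcases lt_trichotomy q.leadingCoeff 0 with h | h | h
  · obtain ⟨L, hL⟩ := poly_pos (-q) (by rwa [Polynomial.natDegree_neg]) (by
      rw [Polynomial.leadingCoeff_neg]
      linarith)
    refine ⟨L, fun c => ?_⟩
    have h3 : {n : ℕ | |q.eval (n : ℝ) - c| ≤ 1} = {n : ℕ | |(-q).eval (n : ℝ) - (-c)| ≤ 1} := by
      ext n
      rw [Set.mem_ofPred_eq, Set.mem_ofPred_eq, Polynomial.eval_neg, ← abs_neg]
      have : -(q.eval (n : ℝ) - c) = -q.eval (n : ℝ) - -c := by ring
      rw [this]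
    rw [h3]
    exact hL _
  · rw [Polynomial.leadingCoeff_eq_zero] at h
    rw [h] at h1
    simp at h1
  · exact poly_pos q h1 h

end Pool.Agent.U553.HY
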