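import Pool.Agent.U553.HY.Gen
import Pool.Agent.U553.HY.Disp

/-!
# Exceptional tuples: hyperplanes, and dispersed sequences
-/

set_option autoImplicit false

namespace Pool.Agent.U553.HY

/-- The first letter of the pattern `w` which is not constant is at least `N` at the tuple `s` (if there is such a letter).
The letter `(b, u)` of a pattern stands for `b + ∑ u_j s_j`, and it is constant if `u = 0`. -/
def LargeFirst {k : ℕ} (N : ℕ) (s : Fin k → ℕ) (w : List (ℕ × (Fin k → ℕ))) : Prop :=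
  ∀ p u q, w = p ++ u :: q → (∀ v ∈ p, v.2 = 0) → u.2 ≠ 0 → N ≤ u.1 + ∑ j, u.2 j * s j

/-- The tuples `s` with `2 ≤ s_j ≤ κ N` for all `j` such that in each of the patterns the first letter which is not constant
is at least `N`. All the other letters may be small. -/
def Range {k r : ℕ} (w : Fin r → List (ℕ × (Fin k → ℕ))) (κ N : ℕ) : Set (Fin k → ℕ) :=
  {s | (∀ j, 2 ≤ s j ∧ s j ≤ κ * N) ∧ ∀ i, LargeFirst N s (w i)}

/-- At most `K` hyperplanes `∑ b_j s_j = c` with integers `b_j`, not all zero, and `c`, where `|b_j| ≤ K`, contain all the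
tuples of the set `B`. -/
def OnHyperplanes {k : ℕ} (K : ℕ) (B : Set (Fin k → ℕ)) : Prop :=
  ∃ H : Finset ((Fin k → ℤ) × ℤ), H.card ≤ K ∧ (∀ h ∈ H, h.1 ≠ 0 ∧ ∀ j, |h.1 j| ≤ K) ∧
    ∀ s ∈ B, ∃ h ∈ H, ∑ j, h.1 j * (s j : ℤ) = h.2

/-- For every nonzero integer vector `b` there is a bound, independent of `c`, for the number of the `n` with
`|∑ b_j F_j(n) - c| ≤ 1`. -/
def Dispersed {k : ℕ} (F : Fin k → ℕ → ℝ) : Prop :=
  ∀ b : Fin k → ℤ, b ≠ 0 → ∃ L : ℕ, ∀ c : ℝ, {n : ℕ | |∑ j, (b j : ℝ) * F j n - c| ≤ 1}.encard ≤ L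

theorem onHyperplanes_iff {k K : ℕ} {B : Set (Fin k → ℕ)} : OnHyperplanes K B ↔ Cov K B := Iff.rfl

theorem LargeFirst.tail {k N : ℕ} {s : Fin k → ℕ} {u : ℕ × (Fin k → ℕ)} {w : List (ℕ × (Fin k → ℕ))}
    (h : LargeFirst N s (u :: w)) (hu : u.2 = 0) : LargeFirst N s w := by
  intro p v q hw hp hv
  refine h (u :: p) v q (by rw [hw, List.cons_append]) (fun v' hv' => ?_) hv
  rcases List.mem_cons.1 hv' with rfl | hv'
  · exact hu
  · exact hp v' hv'

theorem LargeFirst.big {k N : ℕ} {s : Fin k → ℕ} {w : List (ℕ × (Fin k → ℕ))} (h : LargeFirst N s w) :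
    Big N s w := by
  induction w with
  | nil => rw [Big]; trivial
  | cons u w ih =>
    rw [Big]
    by_cases hu : u.2 = 0
    · rw [if_pos hu]
      exact ih (h.tail hu)
    · rw [if_neg hu]
      exact h [] u w rfl (fun v hv => absurd hv List.not_mem_nil) hu

theorem LargeFirst.of_le {k N M : ℕ} {s : Fin k → ℕ} {w : List (ℕ × (Fin k → ℕ))} (h : LargeFirst N s w)
    (hM : M ≤ N) : LargeFirst M s w :=
  fun p u q hw hp hu => hM.trans (h p u q hw hp hu)

/-- if all the `s_j` are at least `N` then the first letters are large -/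
theorem largeFirst_of {k N : ℕ} {s : Fin k → ℕ} (hs : ∀ j, N ≤ s j) (w : List (ℕ × (Fin k → ℕ))) :
    LargeFirst N s w := by
  intro p u q _ _ hu
  obtain ⟨j, hj⟩ : ∃ j, u.2 j ≠ 0 := by
    by_contra h
    push Not at h
    exact hu (funext h)
  have h1 : u.2 j * s j ≤ ∑ j, u.2 j * s j :=
    Finset.single_le_sum (f := fun j => u.2 j * s j) (fun _ _ => Nat.zero_le _) (Finset.mem_univ j)
  have h2 : s j ≤ u.2 j * s j := Nat.le_mul_of_pos_left _ (Nat.pos_of_ne_zero hj)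
  have := hs j
  omega

theorem OnHyperplanes.mono {k K : ℕ} {B B' : Set (Fin k → ℕ)} (h : OnHyperplanes K B) (hB : B' ⊆ B) :
    OnHyperplanes K B' := Cov.mono h hB

/-- the number of the tuples in a box -/
theorem OnHyperplanes.ncard {k K N κ : ℕ} (hN : 1 ≤ N) {B : Set (Fin k → ℕ)} (h : OnHyperplanes K B)
    (hB : ∀ s ∈ B, ∀ j, N ≤ s j ∧ s j ≤ κ * N) : B.ncard ≤ (K * (κ + 1) ^ (k - 1)) * N ^ (k - 1) := by
  have hfin : B.Finite := by
    refine (Set.Finite.pi' (t := fun _ : Fin k => Set.Icc N (κ * N)) fun _ => Set.finite_Icc _ _).subset ?_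
    intro s hs j
    exact hB s hs j
  rw [Set.ncard_eq_toFinset_card _ hfin]
  have h1 : Cov K ((hfin.toFinset : Finset (Fin k → ℕ)) : Set (Fin k → ℕ)) := by
    rw [Set.Finite.coe_toFinset]
    exact h
  refine (h1.card (N := N) (N' := κ * N) fun s hs j => hB s ((Set.Finite.mem_toFinset hfin).1 hs) j).trans ?_
  rw [mul_assoc, ← mul_pow]
  refine Nat.mul_le_mul_left _ (Nat.pow_le_pow_left ?_ _)
  rw [add_mul, one_mul]
  omega

theorem dispersed_poly {k : ℕ} (p : Fin k → Polynomial ℝ)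
    (hp : ∀ b : Fin k → ℤ, b ≠ 0 → 0 < (∑ j, (b j : ℝ) • p j).natDegree) :
    Dispersed fun j n => (p j).eval (n : ℝ) := disp_poly p hp

theorem Dispersed.few {k : ℕ} {F : Fin k → ℕ → ℝ} (hF : Dispersed F) (K : ℕ) : ∃ K' : ℕ,
    ∀ B : Set (Fin k → ℕ), OnHyperplanes K B →
      ∀ W : ℕ, {n : ℕ | ∃ s ∈ B, ∀ j, |(s j : ℝ) - F j n| ≤ W}.encard ≤ (K' * (W + 1) : ℕ) :=
  disp_cov hF K

end Pool.Agent.U553.HY
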