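import Pool.Agent.U553.HY.Fam
import Pool.Agent.N665.LP.Lead

/-!
# The part of the largest depth: exceptional tuples lie on few hyperplanes

After `Pool.Agent.N665.LP` (starting library), with coverings by hyperplanes and small letters.
-/

set_option autoImplicit false

namespace Pool.Agent.U553.HY

open Finset Pool.Agent.Y760.ZF Pool.Agent.X90.DC Pool.Agent.N665.LP
open Pool.Agent.Y760.ZG (mz)
open Pool.Agent.X90.DB (Ad ex ex_nil ex_ne ad_ne ix)

variable {k : ℕ}

/-- **the decomposition** -/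
lemma decFU (n : ℕ) : ∀ p : List ℕ, p.length ≤ n → (p = [] ∨ Ad p) → ∀ v : List (Lr k), Gd v →
    ∃ L : List (ℤ × List ℕ × List (Lr k)),
      (∀ e ∈ L, (e.2.1 = [] ∨ Ad e.2.1) ∧ e.2.1 <+: p ∧ (Gd e.2.2 ∧ Up v e.2.2) ∧
        e.2.1.length + e.2.2.length ≤ p.length + v.length ∧
        (fp e.2.1).sum + e.2.2.sum = (fp p).sum + v.sum) ∧
      ∀ (A : Type) [AddCommGroup A] (F : List (Lr k) → A),
        F (fp p ++ v) = (L.map fun e => e.1 • ((psti (fp e.2.1) e.2.2).map F).sum).sum := by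
  classical
  induction n with
  | zero =>
    intro p hp _ v hv
    have : p = [] := List.eq_nil_of_length_eq_zero (by omega)
    subst this
    refine ⟨[(1, [], v)], fun e he => ?_, fun A _ F => ?_⟩
    · rw [List.mem_singleton] at he
      subst he
      exact ⟨Or.inl rfl, List.prefix_refl _, ⟨hv, fun _ _ h => h⟩, le_rfl, rfl⟩
    · have e1 : (fp [] : List (Lr k)) = [] := rfl
      simp only [List.map_cons, List.map_nil, List.sum_cons, List.sum_nil, add_zero, one_smul, e1]
      rw [psti]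
      simp
  | succ n ih =>
    intro p hp hpA v hv
    by_cases hv0 : v = []
    · subst hv0
      refine ⟨[(1, p, [])], fun e he => ?_, fun A _ F => ?_⟩
      · rw [List.mem_singleton] at he
        subst he
        exact ⟨hpA, List.prefix_refl _, ⟨hv, fun _ _ h => h⟩, le_rfl, rfl⟩
      · simp only [List.map_cons, List.map_nil, List.sum_cons, List.sum_nil, add_zero, one_smul]
        rw [psti_nil_right]
        simp
    · have hp1 : ∀ a ∈ p, 1 ≤ a := by
        rcases hpA with rfl | h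
        · simp
        · exact h.pos
      obtain ⟨R, hR, hsum⟩ := psti_split' p hp1 v hv hv0
      -- lengths and weights
      have hgood : ∀ e ∈ R, e.1.length + e.2.length ≤ p.length + v.length ∧
          (fp e.1).sum + e.2.sum = (fp p).sum + v.sum := by
        set G : List (Lr k) → ℕ := fun z =>
          if z.length ≤ p.length + v.length ∧ z.sum = (fp p).sum + v.sum then 0 else 1 with hG
        have h1 := hsum ℕ G
        have h2 : ((psti (fp p) v).map G).sum = 0 := by
          rw [List.sum_eq_zero_iff]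
          intro x hx
          rw [List.mem_map] at hx
          obtain ⟨z, hz, rfl⟩ := hx
          have h3 := psti_sum _ _ z hz
          have h4 := psti_length _ _ z hz
          rw [show (fp p : List (Lr k)).length = p.length from by rw [fp, List.length_map]] at h4
          rw [hG]
          simp only
          rw [if_pos ⟨h4, h3⟩]
        rw [h2] at h1
        have h5 : (R.map fun e => G (fp e.1 ++ e.2)).sum = 0 := by omega
        intro e he
        rw [List.sum_eq_zero_iff] at h5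
        have h6 := h5 _ (List.mem_map_of_mem he)
        rw [hG] at h6
        simp only [List.length_append, List.sum_append] at h6
        by_contra hcon
        rw [if_neg] at h6
        · exact absurd h6 one_ne_zero
        · rw [show (fp e.1 : List (Lr k)).length = e.1.length from by rw [fp, List.length_map]]
          exact hcon
      have h1 : ∀ e : List ℕ × List (Lr k), e ∈ R → ∃ L : List (ℤ × List ℕ × List (Lr k)),
          (∀ e' ∈ L, (e'.2.1 = [] ∨ Ad e'.2.1) ∧ e'.2.1 <+: e.1 ∧ (Gd e'.2.2 ∧ Up e.2 e'.2.2) ∧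
            e'.2.1.length + e'.2.2.length ≤ e.1.length + e.2.length ∧
            (fp e'.2.1).sum + e'.2.2.sum = (fp e.1).sum + e.2.sum) ∧
          ∀ (A : Type) [AddCommGroup A] (F : List (Lr k) → A),
            F (fp e.1 ++ e.2) = (L.map fun e => e.1 • ((psti (fp e.2.1) e.2.2).map F).sum).sum := by
        intro e he
        obtain ⟨⟨q, hq, hpe⟩, hg, _⟩ := hR e he
        refine ih e.1 ?_ ?_ e.2 hg
        · have := List.length_pos_iff.2 hq
          rw [hpe, List.length_append] at hp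
          omega
        · rcases hpA with h | h
          · rw [hpe] at h
            exact Or.inl (List.append_eq_nil_iff.1 h).1
          · rw [hpe] at h
            exact ad_of_prefix h
      choose! Lf hLf1 hLf2 using h1
      refine ⟨(1, p, v) :: R.flatMap fun e => (Lf e).map fun e' => (-e'.1, e'.2),
        fun e he => ?_, fun A _ F => ?_⟩
      · rcases List.mem_cons.1 he with rfl | he
        · exact ⟨hpA, List.prefix_refl _, ⟨hv, fun _ _ h => h⟩, le_rfl, rfl⟩
        · rw [List.mem_flatMap] at he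
          obtain ⟨e1, he1, he⟩ := he
          rw [List.mem_map] at he
          obtain ⟨e2, he2, rfl⟩ := he
          obtain ⟨g1, g2, g3, g4, g5⟩ := hLf1 e1 he1 e2 he2
          obtain ⟨g6, g7⟩ := hgood e1 he1
          obtain ⟨⟨q, hq, hpe⟩, hg, hup⟩ := hR e1 he1
          refine ⟨g1, g2.trans ?_, ⟨g3.1, fun N s h => g3.2 N s (hup N s h)⟩, g4.trans g6, g5.trans g7⟩
          rw [hpe]
          exact List.prefix_append _ _
      · have h4 := hsum A F
        have h5 : ∀ R' : List (List ℕ × List (Lr k)), (∀ e ∈ R', e ∈ R) →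
            ((R'.flatMap fun e => (Lf e).map fun e' => (-e'.1, e'.2)).map
              fun e => e.1 • ((psti (fp e.2.1) e.2.2).map F).sum).sum =
            -(R'.map fun e => F (fp e.1 ++ e.2)).sum := by
          intro R'
          induction R' with
          | nil => simp
          | cons e R' ihR =>
            intro hR'
            rw [List.flatMap_cons, List.map_append, List.sum_append,
              ihR fun e he => hR' e (List.mem_cons_of_mem _ he), List.map_cons, List.sum_cons,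
              neg_add]
            congr 1
            rw [hLf2 e (hR' e List.mem_cons_self) A F, List.map_map]
            generalize Lf e = T
            induction T with
            | nil => simp
            | cons a T ihT =>
              rw [List.map_cons, List.sum_cons, ihT, List.map_cons, List.sum_cons]
              simp only [Function.comp]
              rw [neg_smul, neg_add]
        rw [List.map_cons, List.sum_cons, h5 R fun e he => he, one_smul, h4]
        abel

/-- general patterns -/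
lemma exists_decU (w : List (Lr k)) (hw : Ge w) : ∃ L : List (ℤ × List ℕ × List (Lr k)),
    (∀ e ∈ L, (e.2.1 = [] ∨ Ad e.2.1) ∧ e.2.1 <+: fpx w ∧ (Gd e.2.2 ∧ ∀ N s, Big N s w → ∀ a ∈ (ix s e.2.2).head?, N ≤ a) ∧
      e.2.1.length + e.2.2.length ≤ w.length ∧ (fp e.2.1).sum + e.2.2.sum = w.sum) ∧
    ∀ (A : Type) [AddCommGroup A] (F : List (Lr k) → A),
      F w = (L.map fun e => e.1 • ((psti (fp e.2.1) e.2.2).map F).sum).sum := by
  obtain ⟨v, h2, h3⟩ := exists_prefix2 w hw.2
  have hge : Ge (fp (fpx w) ++ v) := by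
    rw [← h3]
    exact hw
  obtain ⟨L, hL1, hL2⟩ := decFU (fpx w).length (fpx w) le_rfl (ge_prefix hge) v h2
  have hbig : ∀ N s, Big N s w → ∀ a ∈ (ix s v).head?, N ≤ a := by
    intro N s hb
    rw [h3] at hb
    exact hb.fp.of_gd h2
  have hl : w.length = (fpx w).length + v.length := by
    conv_lhs => rw [h3]
    rw [List.length_append, fp, List.length_map]
  have hs : w.sum = (fp (fpx w)).sum + v.sum := by
    conv_lhs => rw [h3]
    rw [List.sum_append]
  refine ⟨L, fun e he => ?_, fun A _ F => ?_⟩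
  · obtain ⟨g1, g2, g3, g4, g5⟩ := hL1 e he
    exact ⟨g1, g2, ⟨g3.1, fun N s hb => g3.2 N s (hbig N s hb)⟩, by rw [hl]; exact g4, by rw [hs]; exact g5⟩
  · rw [← hL2 A F, ← h3]

/-- **finitely many patterns** -/
theorem exists_coeffU (Λ : Finset (List (Lr k))) (hΛ : ∀ w ∈ Λ, Ge w) :
    ∃ (Q : Finset (List ℕ × List (Lr k))) (b : List (Lr k) → (List ℕ × List (Lr k)) → ℤ),
      (∀ p ∈ Q, ∃ w ∈ Λ, (p.1 = [] ∨ Ad p.1) ∧ p.1 <+: fpx w ∧ (Gd p.2 ∧ ∀ N s, Big N s w → ∀ a ∈ (ix s p.2).head?, N ≤ a) ∧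
        p.1.length + p.2.length ≤ w.length ∧ (fp p.1).sum + p.2.sum = w.sum) ∧
      ∀ (A : Type) [AddCommGroup A] (F : List (Lr k) → A), ∀ w ∈ Λ,
        F w = ∑ p ∈ Q, b w p • ((psti (fp p.1) p.2).map F).sum := by
  classical
  have h1 : ∀ w : List (Lr k), w ∈ Λ → ∃ L : List (ℤ × List ℕ × List (Lr k)),
      (∀ e ∈ L, (e.2.1 = [] ∨ Ad e.2.1) ∧ e.2.1 <+: fpx w ∧ (Gd e.2.2 ∧ ∀ N s, Big N s w → ∀ a ∈ (ix s e.2.2).head?, N ≤ a) ∧
        e.2.1.length + e.2.2.length ≤ w.length ∧ (fp e.2.1).sum + e.2.2.sum = w.sum) ∧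
      ∀ (A : Type) [AddCommGroup A] (F : List (Lr k) → A),
        F w = (L.map fun e => e.1 • ((psti (fp e.2.1) e.2.2).map F).sum).sum :=
    fun w hw => exists_decU w (hΛ w hw)
  choose! L hL1 hL2 using h1
  refine ⟨Λ.biUnion fun w => ((L w).map Prod.snd).toFinset,
    fun w p => ((L w).map fun e => if e.2 = p then e.1 else 0).sum, fun p hp => ?_,
    fun A _ F w hw => ?_⟩
  · rw [mem_biUnion] at hp
    obtain ⟨w, hw, hp⟩ := hp
    rw [List.mem_toFinset, List.mem_map] at hp
    obtain ⟨e, he, rfl⟩ := hp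
    exact ⟨w, hw, hL1 w hw e he⟩
  · rw [hL2 w hw A F]
    refine sum_collect (L w) _ (fun p => ((psti (fp p.1) p.2).map F).sum) fun e he => ?_
    rw [mem_biUnion]
    exact ⟨w, hw, List.mem_toFinset.2 (List.mem_map_of_mem he)⟩

/-- the tuples at which two different letters have the same value lie on few hyperplanes -/
lemma cov_coll (E : Finset (Lr k)) : ∃ K : ℕ,
    Cov K {s : Fin k → ℕ | ∃ a ∈ E, ∃ a' ∈ E, a ≠ a' ∧ ev s a = ev s a'} := by
  classical
  set M : ℕ := ∑ a ∈ E, ∑ j, a.2 j with hM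
  have hMb : ∀ a ∈ E, ∀ j, a.2 j ≤ M := by
    intro a ha j
    have h1 : a.2 j ≤ ∑ j, a.2 j := single_le_sum (f := fun j => a.2 j) (fun _ _ => Nat.zero_le _) (mem_univ j)
    have h2 : ∑ j, a.2 j ≤ M := single_le_sum (f := fun a : Lr k => ∑ j, a.2 j) (fun _ _ => Nat.zero_le _) ha
    omega
  refine ⟨E.card * E.card + M, ((E ×ˢ E).filter fun p => p.1.2 ≠ p.2.2).image
    (fun p => ((fun j => (p.1.2 j : ℤ) - (p.2.2 j : ℤ)), (p.2.1 : ℤ) - p.1.1)), ?_, ?_, ?_⟩
  · refine card_image_le.trans ((card_filter_le _ _).trans ?_)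
    rw [card_product]
    exact Nat.le_add_right _ _
  · intro h hh
    rw [mem_image] at hh
    obtain ⟨p, hp, rfl⟩ := hh
    rw [mem_filter, mem_product] at hp
    refine ⟨fun h0 => hp.2 ?_, fun j => ?_⟩
    · funext j
      have h1 := congrFun h0 j
      simp only [Pi.zero_apply] at h1
      omega
    · have h1 := hMb _ hp.1.1 j
      have h2 := hMb _ hp.1.2 j
      simp only
      rw [abs_le]
      push_cast
      have h3 : (0 : ℤ) ≤ (E.card : ℤ) * E.card := by positivity
      constructor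
      · nlinarith [show ((p.2.2 j : ℕ) : ℤ) ≤ M by exact_mod_cast h2, Int.natCast_nonneg (p.1.2 j)]
      · nlinarith [show ((p.1.2 j : ℕ) : ℤ) ≤ M by exact_mod_cast h1, Int.natCast_nonneg (p.2.2 j)]
  · rintro s ⟨a, ha, a', ha', hne, hev⟩
    have h3 : a.2 ≠ a'.2 := by
      intro h
      apply hne
      refine Prod.ext ?_ h
      rw [ev, ev, h] at hev
      omega
    refine ⟨_, mem_image_of_mem _ (mem_filter.2 (⟨mem_product.2 ⟨ha, ha'⟩, h3⟩ : (a, a') ∈ E ×ˢ E ∧ a.2 ≠ a'.2)), ?_⟩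
    rw [ev, ev] at hev
    have h4 : ((a.1 : ℤ) + ∑ j, (a.2 j : ℤ) * (s j : ℤ)) = (a'.1 : ℤ) + ∑ j, (a'.2 j : ℤ) * (s j : ℤ) := by
      exact_mod_cast hev
    simp only [sub_mul, sum_sub_distrib]
    linarith

/-- **the tuples with relations which do not split lie on few hyperplanes** -/
theorem splitH (Λ : Finset (List (Lr k))) (Q : Finset (List ℕ × List (Lr k)))
    (b : List (Lr k) → (List ℕ × List (Lr k)) → ℤ)
    (hQ : ∀ p ∈ Q, (p.1 = [] ∨ Ad p.1) ∧ Gd p.2)
    (hb : ∀ (A : Type) [AddCommGroup A] (F : List (Lr k) → A), ∀ w ∈ Λ,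
      F w = ∑ p ∈ Q, b w p • ((psti (fp p.1) p.2).map F).sum) (κ : ℕ) :
    ∃ K : ℕ, ∀ C : ℝ, ∃ N0 : ℕ, ∀ N : ℕ, N0 ≤ N →
      Cov K {s : Fin k → ℕ | (∀ j, 2 ≤ s j ∧ s j ≤ κ * N) ∧ (∀ p ∈ Q, ∀ a ∈ (ix s p.2).head?, N ≤ a) ∧
        ∃ c : List (Lr k) → ℤ,
        (∀ w ∈ Λ, |(c w : ℝ)| ≤ C ^ N) ∧ ∑ w ∈ Λ, (c w : ℝ) * mz (ix s w) = 0 ∧
        ¬ ∀ v, ∑ p ∈ Q with p.2 = v, ((∑ w ∈ Λ, c w * b w p : ℤ) : ℝ) * mz p.1 = 0} := by
  classical
  set m := Q.card with hm
  let e : Fin m ≃ Q := Q.equivFin.symm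
  obtain ⟨K1, hK1⟩ := fewH m k m 2 (fun j => (e j).1.2) (fun j => (hQ _ (e j).2).2) κ
  set E := lts (Q.image Prod.snd) with hE
  obtain ⟨K2, hK2⟩ := cov_coll E
  refine ⟨K1 + K2, fun C => ?_⟩
  set M : ℝ := ∑ p ∈ Q, ∑ w ∈ Λ, |(b w p : ℝ)| with hM
  have hM0 : 0 ≤ M := by positivity
  obtain ⟨N0, hN0⟩ := hK1 ((1 + |C|) * (1 + M)) fun j => ((mz (e j).1.1 : ℝ) : ℂ)
  refine ⟨N0 + 2, fun N hN => ((hN0 N (by omega)).union hK2).mono ?_⟩
  intro s hs
  by_cases hinj : ∃ a ∈ E, ∃ a' ∈ E, a ≠ a' ∧ ev s a = ev s a'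
  · exact Or.inr hinj
  · left
    obtain ⟨hs1, hbig, c, hcC, hc0, hcne⟩ := hs
    have hs2 : ∀ j, 2 ≤ s j := fun j => (hs1 j).1
    set ρ : List ℕ × List (Lr k) → ℤ := fun p => ∑ w ∈ Λ, c w * b w p with hρ
    have hρB : ∑ p ∈ Q, |(ρ p : ℝ)| ≤ ((1 + |C|) * (1 + M)) ^ N := by
      have h1 : ∑ p ∈ Q, |(ρ p : ℝ)| ≤ |C| ^ N * M := by
        rw [hM, mul_sum]
        refine sum_le_sum fun p _ => ?_
        rw [hρ]
        push_cast
        refine (abs_sum_le_sum_abs _ _).trans ?_
        rw [mul_sum]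
        refine sum_le_sum fun w hw => ?_
        rw [abs_mul]
        exact mul_le_mul_of_nonneg_right ((hcC w hw).trans ((le_abs_self _).trans (abs_pow _ _).le))
          (abs_nonneg _)
      refine h1.trans ?_
      rw [mul_pow]
      refine mul_le_mul (pow_le_pow_left₀ (abs_nonneg _) (by linarith) _) ?_ hM0 (by positivity)
      exact (by linarith : M ≤ 1 + M).trans (le_self_pow₀ (by linarith) (by omega))
    have hsumQ : ∀ {A : Type} [AddCommMonoid A] (F : List ℕ × List (Lr k) → A),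
        ∑ j : Fin m, F (e j).1 = ∑ p ∈ Q, F p := by
      intro A _ F
      rw [Equiv.sum_comp e fun p : Q => F p.1, sum_coe_sort Q F]
    refine ⟨hs1, fun j => hbig _ (e j).2, diag fun j => ρ (e j).1, diag_deg _, fun n => ?_, ?_, fun hT => hcne ?_⟩
    · refine (diag_coeff _ n).trans ?_
      rw [hsumQ fun p => |(ρ p : ℝ)|]
      exact hρB
    · rw [diag_eval, hsumQ fun p => ((ρ p : ℤ) : ℂ) * (((mz p.1 : ℝ) : ℂ) * ((mz (ix s p.2) : ℝ) : ℂ))]
      have h1 : ∑ w ∈ Λ, ((c w : ℤ) : ℂ) * ((mz (ix s w) : ℝ) : ℂ) = 0 := by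
        have := congrArg (fun y : ℝ => (y : ℂ)) hc0
        push_cast at this
        exact this
      rw [← h1]
      have h2 : ∀ w ∈ Λ, ((mz (ix s w) : ℝ) : ℂ) =
          ∑ p ∈ Q, ((b w p : ℤ) : ℂ) * (((mz p.1 : ℝ) : ℂ) * ((mz (ix s p.2) : ℝ) : ℂ)) := by
        intro w hw
        have h3 := hb ℂ (fun z => ((mz (ix s z) : ℝ) : ℂ)) w hw
        rw [h3]
        refine sum_congr rfl fun p hp => ?_
        rw [prod_eq hs2 (hQ p hp).1 (hQ p hp).2, zsmul_eq_mul]
      have h3 : ∑ w ∈ Λ, ((c w : ℤ) : ℂ) * ((mz (ix s w) : ℝ) : ℂ) = ∑ w ∈ Λ, ∑ p ∈ Q,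
          ((c w : ℤ) : ℂ) * (((b w p : ℤ) : ℂ) * (((mz p.1 : ℝ) : ℂ) * ((mz (ix s p.2) : ℝ) : ℂ))) :=
        sum_congr rfl fun w hw => by rw [h2 w hw, mul_sum]
      rw [h3, sum_comm]
      refine sum_congr rfl fun p _ => ?_
      rw [hρ]
      push_cast
      rw [sum_mul]
      exact sum_congr rfl fun w _ => by ring
    · have hinj' : ∀ v ∈ Q.image Prod.snd, ∀ v' ∈ Q.image Prod.snd, ix s v = ix s v' → v = v' := by
        intro v hv v' hv' h
        by_contra hne
        obtain ⟨a, ha, a', ha', h1, h2⟩ := ix_ne s v v' hne h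
        exact hinj ⟨a, mem_biUnion.2 ⟨v, hv, List.mem_toFinset.2 ha⟩, a',
          mem_biUnion.2 ⟨v', hv', List.mem_toFinset.2 ha'⟩, h1, h2⟩
      have h1 : ∀ B : List ℂ, ∑ p ∈ Q, (((ρ p : ℤ) : ℂ) * ((mz p.1 : ℝ) : ℂ)) * Zt B (ix s p.2) = 0 := by
        intro B
        have h2 := hT ℂ (fun j => ((mz (e j).1.1 : ℝ) : ℂ)) (Zt B) (fun _ h => h)
          (fun u v _ _ => Zt_mul B u v)
        rw [diag_eval, hsumQ fun p => ((ρ p : ℤ) : ℂ) * (((mz p.1 : ℝ) : ℂ) * ex (Zt B) (ix s p.2))] at h2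
        rw [← h2]
        refine sum_congr rfl fun p _ => ?_
        have h3 : ex (Zt B) (ix s p.2) = Zt B (ix s p.2) := by
          by_cases h : ix s p.2 = []
          · rw [h, ex_nil, Zt_nil]
          · rw [ex_ne _ h]
        rw [h3]
        ring
      set T : Finset (List ℕ) := Q.image fun p => ix s p.2 with hT'
      have h2 := Zt_indep (∑ w ∈ T, w.length) T
        (fun w => ∑ p ∈ Q with ix s p.2 = w, ((ρ p : ℤ) : ℂ) * ((mz p.1 : ℝ) : ℂ))
        (fun w hw => single_le_sum (f := fun w : List ℕ => w.length) (fun _ _ => Nat.zero_le _) hw)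
        (fun B => by
          rw [← h1 B, ← sum_fiberwise_of_maps_to (t := T) (g := fun p : List ℕ × List (Lr k) => ix s p.2)
            (fun p hp => mem_image_of_mem _ hp)]
          refine sum_congr rfl fun w _ => ?_
          rw [sum_mul]
          refine sum_congr rfl fun p hp => ?_
          rw [(mem_filter.1 hp).2])
      intro v
      by_cases hv : v ∈ Q.image Prod.snd
      · have h3 := h2 (ix s v) (by
          obtain ⟨p, hp, rfl⟩ := mem_image.1 hv
          exact mem_image_of_mem (fun p : List ℕ × List (Lr k) => ix s p.2) hp)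
        have h4 : (Q.filter fun p => ix s p.2 = ix s v) = Q.filter fun p => p.2 = v := by
          refine filter_congr fun p hp => ⟨fun h => hinj' _ (mem_image_of_mem _ hp) _ hv h, fun h => by rw [h]⟩
        rw [h4] at h3
        have h5 : ((∑ p ∈ Q with p.2 = v, ((ρ p : ℤ) : ℝ) * mz p.1 : ℝ) : ℂ) = 0 := by
          rw [← h3]
          push_cast
          rfl
        exact_mod_cast h5
      · rw [sum_eq_zero]
        intro p hp
        rw [mem_filter] at hp
        exact absurd (hp.2 ▸ mem_image_of_mem _ hp.1) hv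

/-- **the tuples with relations whose part of depth `r` does not split lie on few hyperplanes** -/
theorem leadH (r : ℕ) (S : Lr k) (Λ : Finset (List (Lr k))) (hΛ : ∀ w ∈ Λ, Ge w)
    (hr : ∀ w ∈ Λ, w.length ≤ r) (hS : ∀ w ∈ Λ, w.sum = S) (κ : ℕ) :
    ∃ K : ℕ, ∀ C : ℝ, ∃ N0 : ℕ, ∀ N : ℕ, N0 ≤ N →
      OnHyperplanes K {s : Fin k → ℕ | (∀ j, 2 ≤ s j ∧ s j ≤ κ * N) ∧ (∀ w ∈ Λ, LargeFirst N s w) ∧
        ∃ c : List (Lr k) → ℤ, (∀ w, w ∉ Λ → c w = 0) ∧
        (∀ w ∈ Λ, |(c w : ℝ)| ≤ C ^ N) ∧ ∑ w ∈ Λ, (c w : ℝ) * mz (ix s w) = 0 ∧ ¬ Spl Λ r S c} := by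
  classical
  obtain ⟨Q, b, hQ, hb⟩ := exists_coeffU Λ hΛ
  obtain ⟨K, hK⟩ := splitH Λ Q b (fun p hp => by
    obtain ⟨w, _, h1, _, h2, _⟩ := hQ p hp
    exact ⟨h1, h2.1⟩) hb κ
  refine ⟨K, fun C => ?_⟩
  obtain ⟨N0, hN0⟩ := hK C
  refine ⟨N0, fun N hN => (hN0 N hN).mono ?_⟩
  rintro s ⟨h1, hbig, c, hc, hcC, hc0, hne⟩
  refine ⟨h1, fun p hp => ?_, c, hcC, hc0, fun hv => hne ?_⟩
  · obtain ⟨w, hw, _, _, h2, _⟩ := hQ p hp
    exact h2.2 N s (hbig w hw).big
  set ρ : List ℕ × List (Lr k) → ℤ := fun p => ∑ w ∈ Λ, c w * b w p with hρ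
  refine ⟨Q.filter fun p => p.1.length + p.2.length = r, ρ, fun p hp => ?_, fun o ho => ?_,
    fun v => ?_⟩
  · rw [mem_filter] at hp
    obtain ⟨w, hw, h2, h3, h4, h5, h6⟩ := hQ p hp.1
    refine ⟨adI_of h2, h4.1, h6.trans (hS w hw), hp.2, w, hw, ?_, h3⟩
    have := hr w hw
    omega
  · -- the coefficients
    have h2 : c o = ∑ p ∈ Q, ρ p * ((psti (fp p.1) p.2).count o : ℤ) := by
      have h3 : ∀ w ∈ Λ, (if w = o then (1 : ℤ) else 0) =
          ∑ p ∈ Q, b w p * ((psti (fp p.1) p.2).count o : ℤ) := by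
        intro w hw
        have h4 := hb ℤ (fun z => if z = o then (1 : ℤ) else 0) w hw
        rw [h4]
        refine sum_congr rfl fun p _ => ?_
        rw [smul_eq_mul]
        congr 1
        generalize psti (fp p.1) p.2 = L
        induction L with
        | nil => simp
        | cons a L ih =>
          rw [List.map_cons, List.sum_cons, ih, List.count_cons]
          by_cases h : a = o
          · simp [h]
            ring
          · simp [h]
      have h5 : c o = ∑ w ∈ Λ, c w * (if w = o then (1 : ℤ) else 0) := by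
        simp only [mul_ite, mul_one, mul_zero]
        rw [sum_ite_eq']
        split_ifs with h
        · rfl
        · exact hc o h
      rw [h5, sum_congr rfl fun w hw => by rw [h3 w hw, mul_sum], sum_comm]
      refine sum_congr rfl fun p _ => ?_
      rw [hρ]
      simp only
      rw [sum_mul]
      exact sum_congr rfl fun w _ => by ring
    rw [h2, ← sum_filter_add_sum_filter_not Q (fun p => p.1.length + p.2.length = r)]
    have h3 : ∑ p ∈ Q.filter (fun p => ¬ p.1.length + p.2.length = r),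
        ρ p * ((psti (fp p.1) p.2).count o : ℤ) = 0 := by
      refine sum_eq_zero fun p hp => ?_
      rw [mem_filter] at hp
      obtain ⟨w, hw, _, _, _, h5, _⟩ := hQ p hp.1
      have h6 := hr w hw
      rw [List.count_eq_zero.2, Nat.cast_zero, mul_zero]
      intro h7
      have h8 := psti_length _ _ o h7
      rw [fp_length] at h8
      have := hp.2
      omega
    rw [h3, add_zero]
    refine sum_congr rfl fun p hp => ?_
    rw [psti_count _ _ _ (by rw [fp_length, ho, (mem_filter.1 hp).2])]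
  · have h2 := hv v
    rw [← sum_filter_add_sum_filter_not _ (fun p : List ℕ × List (Lr k) => p.1.length + p.2.length = r)] at h2
    have h3 : ∑ p ∈ (Q.filter fun p => p.1.length + p.2.length = r) with p.2 = v, (ρ p : ℝ) * mz p.1 =
        ∑ p ∈ (Q.filter fun p => p.2 = v) with p.1.length + p.2.length = r,
          ((∑ w ∈ Λ, c w * b w p : ℤ) : ℝ) * mz p.1 := by
      rw [filter_filter, filter_filter]
      exact sum_congr (filter_congr fun p _ => by rw [and_comm]) fun _ _ => rfl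
    rw [h3, eq_neg_of_add_eq_zero_left h2]
    refine Submodule.neg_mem _ (Submodule.sum_mem _ fun p hp => ?_)
    obtain ⟨hp, hpl⟩ := mem_filter.1 hp
    obtain ⟨hp, hpv⟩ := mem_filter.1 hp
    obtain ⟨w, hw, h4, _, _, h5, h6⟩ := hQ p hp
    have h7 := hr w hw
    have h8 : ((∑ w ∈ Λ, c w * b w p : ℤ) : ℝ) * mz p.1 = ((∑ w ∈ Λ, c w * b w p : ℤ) : ℚ) • mz p.1 := by
      rw [Rat.smul_def]
      push_cast
      rfl
    rw [h8]
    refine Submodule.smul_mem _ _ (Submodule.subset_span ⟨p.1, adI_of h4, ?_, ?_, rfl⟩)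
    · have h9 := congrArg Prod.fst (h6.trans (hS w hw))
      rw [Prod.fst_add, fp_sum_fst, hpv] at h9
      omega
    · rw [← hpv]
      omega

end Pool.Agent.U553.HY
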