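import Pool.Agent.U553.HY.Cov

/-!
# The dichotomy for tuples with small coordinates
-/

set_option autoImplicit false

namespace Pool.Agent.U553.HY

open Finset Pool.Agent.Y760.ZF
open Pool.Agent.Y760.ZG (mz)
open Pool.Agent.X90.DA (fx eval_sum)
open Pool.Agent.X90.DB
open Pool.Agent.X90.DC

lemma ix_Cl' {k K0 ℓ N κ : ℕ} {s : Fin k → ℕ} (hs : ∀ j, 1 ≤ s j ∧ s j ≤ κ * N) (hN : 1 ≤ N)
    {w : List (ℕ × (Fin k → ℕ))} (hw : Gd w) (hb : ∀ a ∈ (ix s w).head?, N ≤ a)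
    (hK0 : ∀ u ∈ w, u.1 ≤ K0 ∧ ∀ j, u.2 j ≤ K0) (hℓ : w.length ≤ ℓ) :
    Cl N ((K0 * (1 + k * κ) : ℕ) * (N : ℝ)) ℓ (ix s w) := by
  refine ⟨by rw [ix, List.length_map]; exact hℓ, fun m hm => ?_, fun m hm => ?_⟩
  · refine ⟨ix_pos (fun j => (hs j).1) hw.2 m hm, ?_⟩
    rw [ix, List.mem_map] at hm
    obtain ⟨u, hu, rfl⟩ := hm
    have h1 : ∑ j, u.2 j * s j ≤ ∑ _j : Fin k, K0 * (κ * N) :=
      sum_le_sum fun j _ => Nat.mul_le_mul ((hK0 u hu).2 j) (hs j).2
    rw [sum_const, card_univ, Fintype.card_fin, smul_eq_mul] at h1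
    have h2 : K0 ≤ K0 * N := Nat.le_mul_of_pos_right _ hN
    have h3 : u.1 + ∑ j, u.2 j * s j ≤ K0 * (1 + k * κ) * N := by
      calc u.1 + ∑ j, u.2 j * s j ≤ K0 * N + k * (K0 * (κ * N)) := by
            have := (hK0 u hu).1
            omega
        _ = K0 * (1 + k * κ) * N := by ring
    exact_mod_cast h3
  · exact hb m hm

/-- **the dichotomy** -/
theorem dich' (t k r D : ℕ) (w : Fin r → List (ℕ × (Fin k → ℕ)))
    (hw : ∀ i, Gd (w i)) (κ K0 ℓ : ℕ)
    (hK0 : ∀ i, ∀ u ∈ w i, u.1 ≤ K0 ∧ ∀ j, u.2 j ≤ K0) (hℓ : ∀ i, (w i).length ≤ ℓ) (C : ℝ)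
    (x : Fin t → ℂ) :
    ∃ (M : ℕ) (_ : M + 1 ≤ (D + 1) ^ t) (v : Fin (M + 1) → ℂ) (_ : LinearIndependent ℚ v)
      (C' : ℝ) (_ : 1 ≤ C'), ∀ N : ℕ, r * D * ℓ + 2 ≤ N → ∀ s : Fin k → ℕ,
      (∀ j, 2 ≤ s j ∧ s j ≤ κ * N) → (∀ i, ∀ a ∈ (ix s (w i)).head?, N ≤ a) → ∀ P : MvPolynomial (Fin t ⊕ Fin r) ℤ, P.totalDegree ≤ D →
      (∀ m, |((P.coeff m : ℤ) : ℝ)| ≤ C ^ N) →
      MvPolynomial.aeval (Sum.elim x fun i => ((mz (ix s (w i)) : ℝ) : ℂ)) P = 0 →
      Bd N (M + 1) ((D + 1) ^ r * (3 ^ (r * D * ℓ)) ^ (r * D)) (r * D * ℓ)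
        ((r * D * (K0 * (1 + k * κ)) : ℕ) : ℝ) C' (r * D * K0) v (Lt (r * D * K0) s) ∨
      Triv x (fun i => ix s (w i)) P := by
  classical
  obtain ⟨M, hM, g, hv, Δ, hΔ, ρ, hρ⟩ := indep'
    (fun m : Fin t → Fin (D + 1) => ∏ j, x j ^ ((m j : Fin (D + 1)) : ℕ)) ⟨0, by simp⟩
  rw [Fintype.card_fun, Fintype.card_fin, Fintype.card_fin] at hM
  set S : ℕ := (3 ^ (r * D * ℓ)) ^ (r * D) with hS
  set Sρ : ℝ := ∑ m : Fin t → Fin (D + 1), ∑ μ, |(ρ m μ : ℝ)| with hSρ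
  have hSρ0 : 0 ≤ Sρ := by positivity
  set C1 : ℝ := ((D + 1) ^ r * S * Sρ + 1) with hC1
  have hC11 : 1 ≤ C1 := by
    rw [hC1]
    exact le_add_of_nonneg_left (by positivity)
  have hC0 : 0 ≤ |C| := abs_nonneg C
  refine ⟨M, hM, _, hv, C1 * (1 + |C|), by nlinarith, fun N hN s hs hb P hPD hPC hP0 => ?_⟩
  have hN1 : 1 ≤ N := by omega
  set W : Fin r → List ℕ := fun i => ix s (w i) with hW
  -- the monomials
  have hlen : ∀ e : Fin r → Fin (D + 1), (lst W fun i => (e i : ℕ)).length ≤ r * D := by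
    intro e
    rw [length_lst]
    calc ∑ i, ((e i : Fin (D + 1)) : ℕ) ≤ ∑ _i : Fin r, D :=
          sum_le_sum fun i _ => Nat.lt_succ_iff.1 (e i).2
      _ = r * D := by simp
  have hCl : ∀ e : Fin r → Fin (D + 1), ∀ u ∈ lst W fun i => (e i : ℕ),
      Cl N ((K0 * (1 + k * κ) : ℕ) * (N : ℝ)) ℓ u := by
    intro e u hu
    obtain ⟨i, rfl⟩ := mem_lst hu
    exact ix_Cl' (fun j => ⟨le_trans (by norm_num) (hs j).1, (hs j).2⟩) hN1 (hw i) (hb i) (hK0 i) (hℓ i)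
  have hcnt : ∀ e : Fin r → Fin (D + 1), (stil (lst W fun i => (e i : ℕ))).length ≤ S := by
    intro e
    refine (stil_count ℓ _ fun u hu => (hCl e u hu).1).2.trans ?_
    rw [hS]
    refine (Nat.pow_le_pow_left (Nat.pow_le_pow_right (by omega)
      (Nat.mul_le_mul_right ℓ (hlen e))) _).trans ?_
    exact Nat.pow_le_pow_right (Nat.one_le_pow _ _ (by omega)) (hlen e)
  have hval := val_eq (A := ℂ) hPD hρ W (fun u => ((mz u : ℝ) : ℂ)) (fun e => by
    have h1 := mz_prod (by positivity) _ (hCl e) (by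
      have := Nat.mul_le_mul_right ℓ (hlen e)
      omega)
    rw [prod_lst] at h1
    have h2 := congrArg (fun y : ℝ => (y : ℂ)) h1
    push_cast at h2
    rw [h2]
    generalize stil (lst W fun i => (e i : ℕ)) = T
    induction T with
    | nil => simp
    | cons a T ih => simp [ih])
  rw [hP0, mul_zero] at hval
  by_cases hz : ∃ y ∈ La D W, ∃ μ, cf P ρ W y μ ≠ 0
  · left
    refine ⟨La D W, cf P ρ W, ?_, fun y hy => ?_, fun y hy μ => ?_, hz, hval.symm⟩
    · rw [La]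
      calc (univ.biUnion fun e : Fin r → Fin (D + 1) =>
            (stil (lst W fun i => (e i : ℕ))).toFinset).card ≤
          ∑ e : Fin r → Fin (D + 1), (stil (lst W fun i => (e i : ℕ))).toFinset.card :=
            card_biUnion_le
        _ ≤ ∑ _e : Fin r → Fin (D + 1), S :=
            sum_le_sum fun e _ => (List.toFinset_card_le _).trans (hcnt e)
        _ = (D + 1) ^ r * S := by simp
    · rw [La, mem_biUnion] at hy
      obtain ⟨e, -, hy⟩ := hy
      rw [List.mem_toFinset] at hy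
      have h1 := stil_Cl (by positivity) _ (hCl e) y hy
      have h2 := hlen e
      refine ⟨h1.1.trans (Nat.mul_le_mul_right _ h2), ⟨fun m hm => ⟨(h1.2.1 m hm).1, ?_⟩,
        h1.2.2⟩, ?_⟩
      · refine (h1.2.1 m hm).2.trans ?_
        have h3 : (((lst W fun i => (e i : ℕ)).length : ℕ) : ℝ) ≤ ((r * D : ℕ) : ℝ) := by
          exact_mod_cast h2
        calc (((lst W fun i => (e i : ℕ)).length : ℕ) : ℝ) * (((K0 * (1 + k * κ) : ℕ) : ℝ) * N) ≤
            ((r * D : ℕ) : ℝ) * (((K0 * (1 + k * κ) : ℕ) : ℝ) * N) :=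
              mul_le_mul_of_nonneg_right h3 (by positivity)
          _ = _ := by push_cast; ring
      · have h3 := stil_Hd (lst W fun i => (e i : ℕ)) (K := K0) (s := s) (fun u hu => by
          obtain ⟨i, rfl⟩ := mem_lst hu
          exact ix_Hd s (hw i) (hK0 i)) y hy
        have h4 := Nat.mul_le_mul_right K0 h2
        refine ⟨fun a ha => Lt_mono h4 s (h3.1 a ha), fun a ha => ?_⟩
        rcases h3.2 a ha with h5 | h5
        · exact Or.inl (Lt_mono h4 s h5)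
        · exact Or.inr (h5.trans h4)
    · -- heights
      have hCN : ∀ m, |((P.coeff m : ℤ) : ℝ)| ≤ |C| ^ N := fun m =>
        (hPC m).trans ((le_abs_self _).trans (abs_pow _ _).le)
      unfold cf
      push_cast
      calc |∑ e : Fin r → Fin (D + 1), (∑ m : Fin t → Fin (D + 1),
            ((P.coeff (fx (Sum.elim m e)) : ℤ) : ℝ) * (ρ m μ : ℝ)) *
            (((stil (lst W fun i => (e i : ℕ))).countP (· = y) : ℕ) : ℝ)| ≤
          ∑ _e : Fin r → Fin (D + 1), (|C| ^ N * Sρ) * (S : ℝ) := by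
            refine (abs_sum_le_sum_abs _ _).trans (sum_le_sum fun e _ => ?_)
            rw [abs_mul, Nat.abs_cast]
            refine mul_le_mul ?_ ?_ (Nat.cast_nonneg _) (by positivity)
            · refine (abs_sum_le_sum_abs _ _).trans ?_
              rw [hSρ, mul_sum]
              refine sum_le_sum fun m _ => ?_
              rw [abs_mul]
              refine mul_le_mul (hCN _) ?_ (abs_nonneg _) (by positivity)
              exact single_le_sum (f := fun μ => |(ρ m μ : ℝ)|) (fun _ _ => abs_nonneg _)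
                (mem_univ μ)
            · exact_mod_cast List.countP_le_length.trans (hcnt e)
        _ = ((D + 1) ^ r * S * Sρ) * |C| ^ N := by
            rw [sum_const, card_univ, Fintype.card_fun, Fintype.card_fin, Fintype.card_fin,
              nsmul_eq_mul]
            push_cast
            ring
        _ ≤ C1 * (1 + |C|) ^ N := by
            refine mul_le_mul (by rw [hC1]; linarith) ?_ (by positivity) (by linarith)
            exact pow_le_pow_left₀ hC0 (by linarith) _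
        _ ≤ C1 ^ N * (1 + |C|) ^ N := by
            refine mul_le_mul_of_nonneg_right ?_ (by positivity)
            exact le_self_pow₀ hC11 (by omega)
        _ = (C1 * (1 + |C|)) ^ N := (mul_pow _ _ _).symm
  · right
    push Not at hz
    intro A _ _ y Z hy hZ
    have hAd : ∀ i, W i = [] ∨ Ad (W i) := fun i =>
      ix_Ad (fun j => (hs j).1) (hw i)
    have hρA : ∀ m : Fin t → Fin (D + 1),
        (Δ : A) * ∏ j, y j ^ ((m j : Fin (D + 1)) : ℕ) =
        ∑ μ, (ρ m μ : A) * ∏ j, y j ^ ((g μ j : Fin (D + 1)) : ℕ) := by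
      intro m
      have h1 := hy ((Δ : MvPolynomial (Fin t) ℤ) * ∏ j, MvPolynomial.X j ^ ((m j : Fin (D + 1)) : ℕ) -
        ∑ μ, (ρ m μ : MvPolynomial (Fin t) ℤ) *
          ∏ j, MvPolynomial.X j ^ ((g μ j : Fin (D + 1)) : ℕ)) (by
        simp only [map_sub, map_mul, map_natCast, map_prod, map_pow, MvPolynomial.aeval_X, map_sum,
          map_intCast]
        rw [hρ m, sub_self])
      simp only [map_sub, map_mul, map_natCast, map_prod, map_pow, MvPolynomial.aeval_X, map_sum,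
          map_intCast] at h1
      exact sub_eq_zero.1 h1
    have hval2 := val_eq (A := A) hPD hρA W (ex Z) (fun e => by
      rw [← prod_lst]
      exact prod_ex' hZ _ fun u hu => by
        obtain ⟨i, rfl⟩ := mem_lst hu
        exact hAd i)
    rw [sum_eq_zero fun y hy => by simp [hz y hy]] at hval2
    have h2 : (Δ : A) = algebraMap ℚ A (Δ : ℚ) := (map_natCast _ _).symm
    have h3 : (Δ : ℚ) ≠ 0 := by exact_mod_cast hΔ
    calc _ = algebraMap ℚ A ((Δ : ℚ)⁻¹) * ((Δ : A) * MvPolynomial.aeval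
          (Sum.elim y fun i => ex Z (W i)) P) := by
          rw [h2, ← mul_assoc, ← map_mul, inv_mul_cancel₀ h3, map_one, one_mul]
      _ = 0 := by rw [hval2, mul_zero]


/-- **the exceptional tuples are covered by few hyperplanes** -/
theorem fewH (t k r D : ℕ) (w : Fin r → List (ℕ × (Fin k → ℕ)))
    (hw : ∀ i, Gd (w i)) (κ : ℕ) :
    ∃ K : ℕ, ∀ (C : ℝ) (x : Fin t → ℂ), ∃ N0 : ℕ, ∀ N : ℕ, N0 ≤ N →
      Cov K {s : Fin k → ℕ | (∀ j, 2 ≤ s j ∧ s j ≤ κ * N) ∧ (∀ i, ∀ a ∈ (ix s (w i)).head?, N ≤ a) ∧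
        ∃ P : MvPolynomial (Fin t ⊕ Fin r) ℤ, P.totalDegree ≤ D ∧
          (∀ m, |((P.coeff m : ℤ) : ℝ)| ≤ C ^ N) ∧
          MvPolynomial.aeval (Sum.elim x fun i => ((mz (ix s (w i)) : ℝ) : ℂ)) P = 0 ∧
          ¬ Triv x (fun i => ix s (w i)) P} := by
  classical
  -- the constants of the words
  obtain ⟨K0, hK0⟩ : ∃ K0 : ℕ, ∀ i, ∀ u ∈ w i, u.1 ≤ K0 ∧ ∀ j, u.2 j ≤ K0 := by
    refine ⟨∑ i, ((w i).map fun u => u.1 + ∑ j, u.2 j).sum, fun i u hu => ?_⟩
    have h1 : ((w i).map fun u => u.1 + ∑ j, u.2 j).sum ≤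
        ∑ i, ((w i).map fun u => u.1 + ∑ j, u.2 j).sum :=
      single_le_sum (f := fun i => ((w i).map fun u => u.1 + ∑ j, u.2 j).sum)
        (fun _ _ => Nat.zero_le _) (mem_univ i)
    have h2 : u.1 + ∑ j, u.2 j ≤ ((w i).map fun u => u.1 + ∑ j, u.2 j).sum :=
      List.single_le_sum (fun _ _ => Nat.zero_le _) _ (List.mem_map_of_mem hu)
    refine ⟨by omega, fun j => ?_⟩
    have h3 : u.2 j ≤ ∑ j, u.2 j :=
      single_le_sum (f := fun j => u.2 j) (fun _ _ => Nat.zero_le _) (mem_univ j)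
    omega
  obtain ⟨ℓ, hℓ⟩ : ∃ ℓ : ℕ, ∀ i, (w i).length ≤ ℓ :=
    ⟨∑ i, (w i).length, fun i => single_le_sum (f := fun i => (w i).length)
      (fun _ _ => Nat.zero_le _) (mem_univ i)⟩
  set m : ℕ := 3 ^ ((D + 1) ^ t) with hm
  set Kk : ℕ := r * D * K0 with hKk
  set T : ℕ := ∑ M ∈ range ((D + 1) ^ t), Tn M Kk with hT
  set Q : ℕ := T + m * Kk + Kk with hQ
  refine ⟨(2 * Q + 1) ^ (1 + m * k), fun C x => ?_⟩
  obtain ⟨M, hM, v, hv, C', hC', hdich⟩ := dich' t k r D w hw κ K0 ℓ hK0 hℓ C x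
  obtain ⟨n0, hno⟩ := no_many M ((D + 1) ^ r * (3 ^ (r * D * ℓ)) ^ (r * D)) (r * D * ℓ)
    ((r * D * (K0 * (1 + k * κ)) : ℕ) : ℝ) C' Kk (Nat.cast_nonneg _) hC'
  have hTM : Tn M Kk ≤ T := by
    rw [hT]
    exact single_le_sum (f := fun M => Tn M Kk) (fun _ _ => Nat.zero_le _) (mem_range.2 hM)
  refine ⟨n0 + (r * D * ℓ + 2), fun N hN => ?_⟩
  refine cov_noGT Q _ m (fun s hs hGT => ?_)
  refine hno N (by omega) v hv (Fin m) (fun i => Lt Kk (s i)) ?_ ?_ (fun i => ?_) fun i => ?_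
  · rw [Fintype.card_fin, hm]
    exact Nat.pow_le_pow_right (by norm_num) (by omega)
  · refine GP.mono (gp hGT (T := T) ?_ ?_) hTM
    · rw [Fintype.card_fin, hQ]
      omega
    · rw [hQ]
      omega
  · exact Lt_zero fun j => le_trans (by norm_num) ((hs i).1 j).1
  · obtain ⟨hs2, hb, P, hPD, hPC, hP0, hPne⟩ := hs i
    exact (hdich N (by omega) (s i) hs2 hb P hPD hPC hP0).resolve_right hPne

end Pool.Agent.U553.HY
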