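import Pool.Agent.U553.HY.Defs
import Pool.Agent.N734.MZ.Few

/-!
# Tuples with relations that fail for a family lie on few hyperplanes
-/

set_option autoImplicit false

namespace Pool.Agent.U553.HY

open Finset Pool.Agent.Y760.ZF
open Pool.Agent.Y760.ZG (mz)
open Pool.Agent.X90.DB (Ad ex ex_ne ix)
open Pool.Agent.X90.DC
open Pool.Agent.N734.MZ (St Tr rel_of)

/-- **tuples with relations that fail for a family** -/
theorem famH {k r : ℕ} (w : Fin r → List (Lr k)) (hw : ∀ i, Ge (w i)) (hne : ∀ i, w i ≠ [])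
    (S : Set (List ℕ)) (hS : ∀ i q, q <+: fpx (w i) → q ≠ [] → q ∈ S) (D κ : ℕ) :
    ∃ K : ℕ, ∀ C : ℝ, ∃ N₀ : ℕ, ∀ N : ℕ, N₀ ≤ N →
      OnHyperplanes K {s : Fin k → ℕ | s ∈ Range w κ N ∧
        ∃ P : MvPolynomial (Fin r) ℤ, P.totalDegree ≤ D ∧ (∀ m, |((P.coeff m : ℤ) : ℝ)| ≤ C ^ N) ∧
          MvPolynomial.aeval (fun i => mz (ix s (w i))) P = 0 ∧
          ∃ (A : Type) (_ : CommRing A) (_ : Algebra ℚ A) (Z : List ℕ → A), St Z ∧ Tr S Z ∧
            MvPolynomial.aeval (fun i => Z (ix s (w i))) P ≠ 0} := by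
  classical
  obtain ⟨K, hK⟩ := genH 0 k r D w hw S hS κ
  refine ⟨K, fun C => ?_⟩
  obtain ⟨N₀, hN₀⟩ := hK C (fun i => i.elim0)
  refine ⟨N₀, fun N hN => (hN₀ N hN).mono fun s hs => ?_⟩
  obtain ⟨⟨h1, hb⟩, P, h2, h3, h4, A, i1, i2, Z, hZ, hF, h5⟩ := hs
  let τ : Fin r → Fin 0 ⊕ Fin r := Sum.inr
  have h6 : ∀ (B : Type) [CommRing B] (x : Fin 0 → B) (v : Fin r → B),
      MvPolynomial.aeval (Sum.elim x v) (MvPolynomial.rename τ P) = MvPolynomial.aeval v P := by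
    intro B _ x v
    rw [MvPolynomial.aeval_rename]
    rfl
  refine ⟨h1, fun i => (hb i).big, MvPolynomial.rename τ P, (MvPolynomial.totalDegree_rename_le _ _).trans h2,
    fun m => ?_, ?_, fun h => h5 ?_⟩
  · by_cases hm : ∃ u, Finsupp.mapDomain τ u = m
    · obtain ⟨u, rfl⟩ := hm
      rw [MvPolynomial.coeff_rename_mapDomain _ Sum.inr_injective]
      exact h3 u
    · rw [MvPolynomial.coeff_rename_eq_zero _ _ _ (fun u hu => absurd ⟨u, hu⟩ hm), Int.cast_zero, abs_zero]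
      exact (abs_nonneg _).trans (h3 0)
  · rw [h6]
    have h7 := MvPolynomial.aeval_algebraMap_apply (A := ℝ) ℂ (fun i => mz (ix s (w i))) P
    rw [h4, map_zero] at h7
    rw [← h7]
    rfl
  · have h8 := h A (fun i => i.elim0) Z (rel_of S Z hF _ _) hZ
    rw [h6] at h8
    have h9 : ∀ i, ex Z (ix s (w i)) = Z (ix s (w i)) :=
      fun i => ex_ne Z (fun h0 => hne i (List.map_eq_nil_iff.1 h0))
    simp only [h9] at h8
    exact h8

end Pool.Agent.U553.HY
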