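import Pool.Agent.U553.HY.Depth

/-!
# Growing patterns are linearly independent over constants
-/

set_option autoImplicit false

namespace Pool.Agent.U553.HY

open Finset Pool.Agent.Y760.ZF Pool.Agent.X90.DC Pool.Agent.N665.LP
open Pool.Agent.Y760.ZG (mz)
open Pool.Agent.X90.DB (Ad ex ex_nil ex_ne ad_ne ix)

variable {k : ℕ}

/-- the polynomial `∑ ρ_ji X_i Y_j` -/
noncomputable def bil {m t : ℕ} (ρ : Fin m → Fin t → ℤ) : MvPolynomial (Fin t ⊕ Fin m) ℤ :=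
  ∑ j, ∑ i, MvPolynomial.C (ρ j i) * (MvPolynomial.X (Sum.inl i) * MvPolynomial.X (Sum.inr j))

lemma bil_deg {m t : ℕ} (ρ : Fin m → Fin t → ℤ) : (bil ρ).totalDegree ≤ 2 := by
  refine MvPolynomial.totalDegree_finsetSum_le fun j _ => MvPolynomial.totalDegree_finsetSum_le fun i _ => ?_
  refine (MvPolynomial.totalDegree_mul _ _).trans ?_
  rw [MvPolynomial.totalDegree_C, zero_add]
  refine (MvPolynomial.totalDegree_mul _ _).trans ?_
  rw [MvPolynomial.totalDegree_X, MvPolynomial.totalDegree_X]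

lemma bil_coeff {m t : ℕ} (ρ : Fin m → Fin t → ℤ) (n : (Fin t ⊕ Fin m) →₀ ℕ) :
    |(((bil ρ).coeff n : ℤ) : ℝ)| ≤ ∑ j, ∑ i, |(ρ j i : ℝ)| := by
  classical
  rw [bil, MvPolynomial.coeff_sum]
  push_cast
  refine (abs_sum_le_sum_abs _ _).trans (sum_le_sum fun j _ => ?_)
  rw [MvPolynomial.coeff_sum]
  push_cast
  refine (abs_sum_le_sum_abs _ _).trans (sum_le_sum fun i _ => ?_)
  rw [MvPolynomial.coeff_C_mul]
  push_cast
  rw [abs_mul]
  refine mul_le_of_le_one_right (abs_nonneg _) ?_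
  have : (MvPolynomial.X (Sum.inl i) * MvPolynomial.X (Sum.inr j) : MvPolynomial (Fin t ⊕ Fin m) ℤ) =
      MvPolynomial.monomial (Finsupp.single (Sum.inl i) 1 + Finsupp.single (Sum.inr j) 1) 1 := by
    rw [MvPolynomial.X, MvPolynomial.X, MvPolynomial.monomial_mul, one_mul]
  rw [this, MvPolynomial.coeff_monomial]
  split_ifs <;> simp

lemma bil_eval {m t : ℕ} (ρ : Fin m → Fin t → ℤ) {A : Type} [CommRing A] (x : Fin t → A) (y : Fin m → A) :
    MvPolynomial.aeval (Sum.elim x y) (bil ρ) = ∑ j, (∑ i, (ρ j i : A) * x i) * y j := by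
  rw [bil, map_sum]
  refine sum_congr rfl fun j _ => ?_
  rw [map_sum, sum_mul]
  refine sum_congr rfl fun i _ => ?_
  rw [map_mul, map_mul, MvPolynomial.aeval_X, MvPolynomial.aeval_X, MvPolynomial.aeval_C]
  simp only [Sum.elim_inl, Sum.elim_inr, eq_intCast]
  ring

/-- **growing patterns are linearly independent over constants** -/
theorem freeH {m : ℕ} (t : ℕ) (v : Fin m → List (Lr k)) (hv : ∀ j, Gd (v j)) (hinj : Function.Injective v) (κ : ℕ) :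
    ∃ K : ℕ, ∀ (C : ℝ) (x : Fin t → ℂ), ∃ N0 : ℕ, ∀ N : ℕ, N0 ≤ N →
      OnHyperplanes K {s : Fin k → ℕ | s ∈ Range v κ N ∧ ∃ ρ : Fin m → Fin t → ℤ, (∀ j i, |(ρ j i : ℝ)| ≤ C ^ N) ∧
        ∑ j, (∑ i, (ρ j i : ℂ) * x i) * ((mz (ix s (v j)) : ℝ) : ℂ) = 0 ∧ ∃ j, ∑ i, (ρ j i : ℂ) * x i ≠ 0} := by
  classical
  obtain ⟨K1, hK1⟩ := fewH t k m 2 v hv κ
  set E := lts (univ.image v) with hE
  obtain ⟨K2, hK2⟩ := cov_coll E
  refine ⟨K1 + K2, fun C x => ?_⟩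
  obtain ⟨N0, hN0⟩ := hK1 ((1 + |C|) * (1 + m * t)) x
  refine ⟨N0 + 1, fun N hN => ((hN0 N (by omega)).union hK2).mono ?_⟩
  rintro s ⟨hs, ρ, hρ, hrel, j₀, hj₀⟩
  by_cases hcol : ∃ a ∈ E, ∃ a' ∈ E, a ≠ a' ∧ ev s a = ev s a'
  · exact Or.inr hcol
  left
  refine ⟨hs.1, fun j => (hs.2 j).big.of_gd (hv j), bil ρ, bil_deg _, fun n => ?_, ?_, fun hT => hj₀ ?_⟩
  · refine (bil_coeff ρ n).trans ?_
    have h1 : ∑ j, ∑ i, |(ρ j i : ℝ)| ≤ (m * t) * |C| ^ N := by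
      refine (sum_le_sum fun j _ => sum_le_sum fun i _ =>
        (hρ j i).trans ((le_abs_self _).trans (abs_pow _ _).le)).trans ?_
      rw [sum_const, sum_const, card_univ, card_univ, Fintype.card_fin, Fintype.card_fin, nsmul_eq_mul,
        nsmul_eq_mul]
      exact le_of_eq (by ring)
    refine h1.trans ?_
    rw [mul_pow, mul_comm]
    refine mul_le_mul (pow_le_pow_left₀ (abs_nonneg _) (by linarith) _) ?_ (by positivity) (by positivity)
    exact (by linarith : (m * t : ℝ) ≤ 1 + m * t).trans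
      (le_self_pow₀ (by nlinarith [Nat.cast_nonneg (α := ℝ) m, Nat.cast_nonneg (α := ℝ) t]) (by omega))
  · rw [bil_eval]
    exact hrel
  · have hix : ∀ j j', ix s (v j) = ix s (v j') → j = j' := by
      intro j j' h
      by_contra hne
      obtain ⟨a, ha, a', ha', h1, h2⟩ := ix_ne s _ _ (fun h => hne (hinj h)) h
      exact hcol ⟨a, mem_biUnion.2 ⟨v j, mem_image_of_mem _ (mem_univ j), List.mem_toFinset.2 ha⟩, a',
        mem_biUnion.2 ⟨v j', mem_image_of_mem _ (mem_univ j'), List.mem_toFinset.2 ha'⟩, h1, h2⟩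
    have h1 : ∀ B : List ℂ, ∑ j, (∑ i, (ρ j i : ℂ) * x i) * Zt B (ix s (v j)) = 0 := by
      intro B
      have h2 := hT ℂ x (Zt B) (fun _ h => h) (fun u v _ _ => Zt_mul B u v)
      rw [bil_eval] at h2
      rw [← h2]
      refine sum_congr rfl fun j _ => ?_
      have h3 : ex (Zt B) (ix s (v j)) = Zt B (ix s (v j)) := by
        by_cases h : ix s (v j) = []
        · rw [h, ex_nil, Zt_nil]
        · rw [ex_ne _ h]
      rw [h3]
    set T : Finset (List ℕ) := univ.image fun j => ix s (v j) with hT'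
    have h2 := Zt_indep (∑ w ∈ T, w.length) T
      (fun w => ∑ j with ix s (v j) = w, ∑ i, (ρ j i : ℂ) * x i)
      (fun w hw => single_le_sum (f := fun w : List ℕ => w.length) (fun _ _ => Nat.zero_le _) hw)
      (fun B => by
        rw [← h1 B, ← sum_fiberwise_of_maps_to (t := T) (g := fun j => ix s (v j))
          (fun j _ => mem_image_of_mem _ (mem_univ j))]
        refine sum_congr rfl fun w _ => ?_
        rw [sum_mul]
        refine sum_congr rfl fun j hj => ?_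
        rw [(mem_filter.1 hj).2]) (ix s (v j₀)) (mem_image_of_mem (fun j => ix s (v j)) (mem_univ j₀))
    have h4 : (univ.filter fun j => ix s (v j) = ix s (v j₀)) = {j₀} := by
      ext j
      rw [mem_filter, mem_singleton]
      exact ⟨fun h => hix _ _ h.2, fun h => ⟨mem_univ _, by rw [h]⟩⟩
    rw [h4, sum_singleton] at h2
    exact h2

/-- the relation `c` is in the ideal generated by the relations of constants -/
def Idl (Λ : Finset (List (Lr k))) (c : List (Lr k) → ℤ) : Prop :=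
  ∃ (Q : Finset (List ℕ × List (Lr k))) (ρ : List ℕ × List (Lr k) → ℤ),
    (∀ p ∈ Q, (p.1 = [] ∨ Ad p.1) ∧ Gd p.2 ∧ (fp p.1).sum + p.2.sum ∈ Λ.image List.sum ∧
      ∃ w ∈ Λ, p.1 <+: fpx w) ∧
    (∀ (A : Type) [AddCommGroup A] (F : List (Lr k) → A),
      ∑ w ∈ Λ, c w • F w = ∑ p ∈ Q, ρ p • ((psti (fp p.1) p.2).map F).sum) ∧
    ∀ v, ∑ p ∈ Q with p.2 = v, (ρ p : ℝ) * mz p.1 = 0

/-- **relations are in the ideal generated by the relations of constants** -/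
theorem idealH (Λ : Finset (List (Lr k))) (hΛ : ∀ w ∈ Λ, Ge w) (κ : ℕ) :
    ∃ K : ℕ, ∀ C : ℝ, ∃ N0 : ℕ, ∀ N : ℕ, N0 ≤ N →
      OnHyperplanes K {s : Fin k → ℕ | (∀ j, 2 ≤ s j ∧ s j ≤ κ * N) ∧ (∀ w ∈ Λ, LargeFirst N s w) ∧
        ∃ c : List (Lr k) → ℤ, (∀ w ∈ Λ, |(c w : ℝ)| ≤ C ^ N) ∧ ∑ w ∈ Λ, (c w : ℝ) * mz (ix s w) = 0 ∧
        ¬ Idl Λ c} := by
  classical
  obtain ⟨Q, b, hQ, hb⟩ := exists_coeffU Λ hΛ
  obtain ⟨K, hK⟩ := splitH Λ Q b (fun p hp => by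
    obtain ⟨w, _, h1, _, h2, _⟩ := hQ p hp
    exact ⟨h1, h2.1⟩) hb κ
  refine ⟨K, fun C => ?_⟩
  obtain ⟨N0, hN0⟩ := hK C
  refine ⟨N0, fun N hN => (hN0 N hN).mono ?_⟩
  rintro s ⟨h1, hbig, c, hcC, hc0, hne⟩
  refine ⟨h1, fun p hp => ?_, c, hcC, hc0, fun hv => hne ?_⟩
  · obtain ⟨w, hw, _, _, h2, _⟩ := hQ p hp
    exact h2.2 N s (hbig w hw).big
  refine ⟨Q, fun p => ∑ w ∈ Λ, c w * b w p, fun p hp => ?_, fun A _ F => ?_, hv⟩
  · obtain ⟨w, hw, g1, g2, g3, _, g5⟩ := hQ p hp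
    refine ⟨g1, g3.1, ?_, w, hw, g2⟩
    rw [g5]
    exact mem_image_of_mem _ hw
  · rw [sum_congr rfl fun w hw => by rw [hb A F w hw, smul_sum], sum_comm]
    refine sum_congr rfl fun p _ => ?_
    rw [sum_smul]
    exact sum_congr rfl fun w _ => by rw [mul_smul]

/-- **the converse** -/
theorem idl_rel (Λ : Finset (List (Lr k))) (c : List (Lr k) → ℤ) (h : Idl Λ c) (s : Fin k → ℕ)
    (hs : ∀ j, 2 ≤ s j) : ∑ w ∈ Λ, (c w : ℝ) * mz (ix s w) = 0 := by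
  classical
  obtain ⟨Q, ρ, hQ, hF, hv⟩ := h
  have h1 := hF ℝ fun w => mz (ix s w)
  simp only [zsmul_eq_mul] at h1
  rw [h1]
  have h2 : ∀ p ∈ Q, ((psti (fp p.1) p.2).map fun w => mz (ix s w)).sum = mz p.1 * mz (ix s p.2) := by
    intro p hp
    obtain ⟨g1, g2, _⟩ := hQ p hp
    have h2 := mz_mul' g1 (ix_Ad hs g2)
    have h3 : sti p.1 (ix s p.2) = (psti (fp p.1) p.2).map (ix s) := by
      rw [← ix_psti, ix_fp]
    rw [h3, List.map_map] at h2
    exact h2.symm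
  rw [sum_congr rfl fun p hp => by rw [h2 p hp], ← sum_fiberwise_of_maps_to (t := Q.image Prod.snd) (g := Prod.snd)
    (fun p hp => mem_image_of_mem _ hp)]
  refine sum_eq_zero fun v _ => ?_
  have h4 : ∑ p ∈ Q with p.2 = v, (ρ p : ℝ) * (mz p.1 * mz (ix s p.2)) =
      (∑ p ∈ Q with p.2 = v, (ρ p : ℝ) * mz p.1) * mz (ix s v) := by
    rw [sum_mul]
    refine sum_congr rfl fun p hp => ?_
    rw [(mem_filter.1 hp).2]
    ring
  rw [h4, hv v, zero_mul]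

end Pool.Agent.U553.HY
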