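import Pool.Agent.U553.HY.Dich

/-!
# General patterns
-/

set_option autoImplicit false

namespace Pool.Agent.U553.HY

open Finset Pool.Agent.Y760.ZF
open Pool.Agent.Y760.ZG (mz)
open Pool.Agent.X90.DA (fx eval_fx)
open Pool.Agent.X90.DB (Ad ex ex_nil ex_ne ad_ne ix)
open Pool.Agent.X90.DC

/-- if the first letter of `v` is large so is the first letter of `v'` -/
def Up {k : ℕ} (v v' : List (Lr k)) : Prop :=
  ∀ (N : ℕ) (s : Fin k → ℕ), (∀ a ∈ (ix s v).head?, N ≤ a) → ∀ a ∈ (ix s v').head?, N ≤ a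

open Classical in
/-- the first letter which is not constant is at least `N` -/
def Big {k : ℕ} (N : ℕ) (s : Fin k → ℕ) : List (Lr k) → Prop
  | [] => True
  | u :: w => if u.2 = 0 then Big N s w else N ≤ u.1 + ∑ j, u.2 j * s j

lemma Big.of_gd {k : ℕ} {N : ℕ} {s : Fin k → ℕ} {v : List (Lr k)} (hv : Gd v) (h : Big N s v) :
    ∀ a ∈ (ix s v).head?, N ≤ a := by
  cases v with
  | nil =>
    intro a ha
    simp [ix] at ha
  | cons u w =>
    intro a ha
    rw [Big, if_neg (hv.1 u (by simp))] at h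
    rw [ix_cons] at ha
    simp only [List.head?_cons, Option.mem_some_iff] at ha
    exact ha ▸ h

lemma Big.fp {k : ℕ} {N : ℕ} {s : Fin k → ℕ} (p : List ℕ) {v : List (Lr k)}
    (h : Big N s (Pool.Agent.X90.DC.fp p ++ v)) : Big N s v := by
  induction p with
  | nil => exact h
  | cons b p ih =>
    have e : (Pool.Agent.X90.DC.fp (b :: p) ++ v : List (Lr k)) = (b, 0) :: (Pool.Agent.X90.DC.fp p ++ v) := rfl
    rw [e, Big, if_pos rfl] at h
    exact ih h

/-- the product of a fixed index and a good pattern -/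
lemma psti_split' {k : ℕ} (p : List ℕ) : (∀ a ∈ p, 1 ≤ a) → ∀ v : List (Lr k), Gd v → v ≠ [] →
    ∃ R : List (List ℕ × List (Lr k)),
      (∀ e ∈ R, (∃ q, q ≠ [] ∧ p = e.1 ++ q) ∧ Gd e.2 ∧ Up v e.2) ∧
      ∀ (A : Type) [AddCommMonoid A] (F : List (Lr k) → A),
        ((psti (fp p) v).map F).sum = F (fp p ++ v) + (R.map fun e => F (fp e.1 ++ e.2)).sum := by
  induction p with
  | nil =>
    intro _ v hv hne
    refine ⟨[], fun e he => absurd he List.not_mem_nil, fun A _ F => ?_⟩
    have : (fp [] : List (Lr k)) = [] := rfl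
    rw [this, psti]
    simp
  | cons b p ih =>
    intro hp v hv hne
    obtain ⟨R', hR', hsum⟩ := ih (fun a ha => hp a (List.mem_cons_of_mem _ ha)) v hv hne
    cases v with
    | nil => exact absurd rfl hne
    | cons j l =>
      have hj : j.2 ≠ 0 := hv.1 j (by simp)
      have hl : ∀ a ∈ l, a.2 ≠ 0 ∨ 1 ≤ a.1 := fun a ha => hv.2 a (List.mem_cons_of_mem _ ha)
      have hbp : ∀ a ∈ (fp (b :: p) : List (Lr k)), a.2 ≠ 0 ∨ 1 ≤ a.1 := by
        intro a ha
        rw [fp, List.mem_map] at ha
        obtain ⟨b', hb', rfl⟩ := ha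
        exact Or.inr (hp b' hb')
      have hbp' : ∀ a ∈ (fp p : List (Lr k)), a.2 ≠ 0 ∨ 1 ≤ a.1 := by
        intro a ha
        rw [fp, List.mem_map] at ha
        obtain ⟨b', hb', rfl⟩ := ha
        exact Or.inr (hp b' (List.mem_cons_of_mem _ hb'))
      refine ⟨R'.map (fun e => (b :: e.1, e.2)) ++
        ((psti (fp (b :: p)) l).map (fun x => (([] : List ℕ), j :: x)) ++
          (psti (fp p) l).map (fun x => (([] : List ℕ), ((b, 0) + j) :: x))), fun e he => ?_,
        fun A _ F => ?_⟩
      · rw [List.mem_append, List.mem_append, List.mem_map, List.mem_map, List.mem_map] at he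
        rcases he with ⟨e', he', rfl⟩ | ⟨x, hx, rfl⟩ | ⟨x, hx, rfl⟩
        · obtain ⟨⟨q, hq, h1⟩, h2⟩ := hR' e' he'
          exact ⟨⟨q, hq, by rw [h1, List.cons_append]⟩, h2⟩
        · refine ⟨⟨b :: p, List.cons_ne_nil _ _, rfl⟩, ⟨?_, ?_⟩, fun N s h => by simpa [ix_cons] using h⟩
          · intro u hu
            simp only [List.head?_cons, Option.mem_some_iff] at hu
            exact hu ▸ hj
          · intro u hu
            rcases List.mem_cons.1 hu with rfl | hu
            · exact Or.inl hj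
            · exact psti_ok _ _ hbp hl x hx u hu
        · have hj' : ((b, 0) + j : Lr k).2 ≠ 0 := by
            simpa using hj
          refine ⟨⟨b :: p, List.cons_ne_nil _ _, rfl⟩, ⟨?_, ?_⟩, fun N s h a ha => ?_⟩
          · intro u hu
            simp only [List.head?_cons, Option.mem_some_iff] at hu
            exact hu ▸ hj'
          · intro u hu
            rcases List.mem_cons.1 hu with rfl | hu
            · exact Or.inl hj'
            · exact psti_ok _ _ hbp' hl x hx u hu
          · have h5 := h (j.1 + ∑ i, j.2 i * s i) (by rw [ix_cons]; simp)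
            rw [ix_cons] at ha
            simp only [List.head?_cons, Option.mem_some_iff] at ha
            subst ha
            simp only [Prod.fst_add, Prod.snd_add, Pi.add_apply, Pi.zero_apply, zero_add]
            omega
      · have e1 : (fp (b :: p) : List (Lr k)) = (b, 0) :: fp p := rfl
        rw [e1, psti, List.map_append, List.map_append, List.sum_append, List.sum_append,
          List.map_append, List.map_append, List.sum_append, List.sum_append]
        simp only [List.map_map]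
        have h2 := hsum A (fun x => F ((b, 0) :: x))
        have e2 : (F ∘ fun x : List (Lr k) => (b, 0) :: x) = fun x => F ((b, 0) :: x) := rfl
        rw [e2, h2]
        rw [add_assoc, add_assoc]
        rfl

/-- **the decomposition** -/
lemma dec3 {k : ℕ} (n : ℕ) : ∀ p : List ℕ, p.length ≤ n → (p = [] ∨ Ad p) → ∀ v : List (Lr k), Gd v →
    ∃ L : List (ℤ × List ℕ × List (Lr k)),
      (∀ e ∈ L, (e.2.1 = [] ∨ Ad e.2.1) ∧ e.2.1 <+: p ∧ Gd e.2.2 ∧ Up v e.2.2) ∧
      ∀ (A : Type) [CommRing A] (Z : List ℕ → A),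
        (∀ u v, Ad u → Ad v → Z u * Z v = ((sti u v).map Z).sum) →
        ∀ s : Fin k → ℕ, (∀ j, 2 ≤ s j) → ex Z (p ++ ix s v) =
          (L.map fun e => (e.1 : A) * (ex Z e.2.1 * ex Z (ix s e.2.2))).sum := by
  induction n with
  | zero =>
    intro p hp _ v hv
    have : p = [] := List.eq_nil_of_length_eq_zero (by omega)
    subst this
    refine ⟨[(1, [], v)], fun e he => ?_, fun A _ Z hZ s hs => ?_⟩
    · rw [List.mem_singleton] at he
      subst he
      exact ⟨Or.inl rfl, List.prefix_refl _, hv, fun _ _ h => h⟩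
    · simp [ex_nil]
  | succ n ih =>
    intro p hp hpA v hv
    by_cases hv0 : v = []
    · subst hv0
      refine ⟨[(1, p, [])], fun e he => ?_, fun A _ Z hZ s hs => ?_⟩
      · rw [List.mem_singleton] at he
        subst he
        exact ⟨hpA, List.prefix_refl _, hv, fun _ _ h => h⟩
      · have : ix s ([] : List (Lr k)) = [] := rfl
        simp [this, ex_nil]
    · have hp1 : ∀ a ∈ p, 1 ≤ a := by
        rcases hpA with rfl | h
        · simp
        · exact h.pos
      obtain ⟨R, hR, hsum⟩ := psti_split' p hp1 v hv hv0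
      have h1 : ∀ e : List ℕ × List (Lr k), e ∈ R → ∃ L : List (ℤ × List ℕ × List (Lr k)),
          (∀ e' ∈ L, (e'.2.1 = [] ∨ Ad e'.2.1) ∧ e'.2.1 <+: e.1 ∧ Gd e'.2.2 ∧ Up e.2 e'.2.2) ∧
          ∀ (A : Type) [CommRing A] (Z : List ℕ → A),
            (∀ u v, Ad u → Ad v → Z u * Z v = ((sti u v).map Z).sum) →
            ∀ s : Fin k → ℕ, (∀ j, 2 ≤ s j) → ex Z (e.1 ++ ix s e.2) =
              (L.map fun e => (e.1 : A) * (ex Z e.2.1 * ex Z (ix s e.2.2))).sum := by
        intro e he
        obtain ⟨⟨q, hq, hpe⟩, hg, hup⟩ := hR e he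
        refine ih e.1 ?_ ?_ e.2 hg
        · have := List.length_pos_iff.2 hq
          rw [hpe, List.length_append] at hp
          omega
        · rcases hpA with h | h
          · rw [hpe] at h
            exact Or.inl (List.append_eq_nil_iff.1 h).1
          · rw [hpe] at h
            exact ad_of_prefix h
      choose! Lf hLf1 hLf2 using h1
      refine ⟨(1, p, v) :: R.flatMap fun e => (Lf e).map fun e' => (-e'.1, e'.2),
        fun e he => ?_, fun A _ Z hZ s hs => ?_⟩
      · rcases List.mem_cons.1 he with rfl | he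
        · exact ⟨hpA, List.prefix_refl _, hv, fun _ _ h => h⟩
        · rw [List.mem_flatMap] at he
          obtain ⟨e1, he1, he⟩ := he
          rw [List.mem_map] at he
          obtain ⟨e2, he2, rfl⟩ := he
          obtain ⟨g1, g2, g3, g4⟩ := hLf1 e1 he1 e2 he2
          obtain ⟨⟨q, hq, hpe⟩, hg, hup⟩ := hR e1 he1
          refine ⟨g1, g2.trans ?_, g3, fun N s h => g4 N s (hup N s h)⟩
          rw [hpe]
          exact List.prefix_append _ _
      · have hvA : ix s v = [] ∨ Ad (ix s v) := ix_Ad hs hv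
        have h2 := ex_mul' hZ hpA hvA
        have h3 : sti p (ix s v) = (psti (fp p) v).map (ix s) := by
          rw [← ix_psti, ix_fp]
        rw [h3, List.map_map] at h2
        have h4 := hsum A (ex Z ∘ ix s)
        rw [h4] at h2
        simp only [Function.comp, ix_append, ix_fp] at h2
        have h5 : ∀ R' : List (List ℕ × List (Lr k)), (∀ e ∈ R', e ∈ R) →
            ((R'.flatMap fun e => (Lf e).map fun e' => (-e'.1, e'.2)).map
              fun e => (e.1 : A) * (ex Z e.2.1 * ex Z (ix s e.2.2))).sum =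
            -(R'.map fun e => ex Z (e.1 ++ ix s e.2)).sum := by
          intro R'
          induction R' with
          | nil => simp
          | cons e R' ihR =>
            intro hR'
            rw [List.flatMap_cons, List.map_append, List.sum_append,
              ihR fun e he => hR' e (List.mem_cons_of_mem _ he), List.map_cons, List.sum_cons,
              neg_add]
            congr 1
            rw [hLf2 e (hR' e List.mem_cons_self) A Z hZ s hs, List.map_map]
            generalize Lf e = T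
            induction T with
            | nil => simp
            | cons a T ihT =>
              rw [List.map_cons, List.sum_cons, ihT, List.map_cons, List.sum_cons]
              simp only [Function.comp]
              push_cast
              ring
        rw [List.map_cons, List.sum_cons, h5 R fun e he => he, h2]
        push_cast
        ring

/-- **the exceptional tuples are covered by few hyperplanes, general patterns** -/
theorem genH (t k r D : ℕ) (w : Fin r → List (Lr k)) (hw : ∀ i, Ge (w i)) (S : Set (List ℕ))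
    (hS : ∀ i q, q <+: fpx (w i) → q ≠ [] → q ∈ S) (κ : ℕ) :
    ∃ K : ℕ, ∀ (C : ℝ) (x : Fin t → ℂ), ∃ N0 : ℕ, ∀ N : ℕ, N0 ≤ N →
      Cov K {s : Fin k → ℕ | (∀ j, 2 ≤ s j ∧ s j ≤ κ * N) ∧ (∀ i, Big N s (w i)) ∧
        ∃ P : MvPolynomial (Fin t ⊕ Fin r) ℤ, P.totalDegree ≤ D ∧
          (∀ m, |((P.coeff m : ℤ) : ℝ)| ≤ C ^ N) ∧
          MvPolynomial.aeval (Sum.elim x fun i => ((mz (ix s (w i)) : ℝ) : ℂ)) P = 0 ∧
          ¬ ∀ (A : Type) [CommRing A] [Algebra ℚ A] (y : Fin t → A) (Z : List ℕ → A),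
            Rel2 S x y Z → (∀ u v, Ad u → Ad v → Z u * Z v = ((sti u v).map Z).sum) →
            MvPolynomial.aeval (Sum.elim y fun i => ex Z (ix s (w i))) P = 0} := by
  classical
  -- the decompositions
  have h1 : ∀ i, ∃ L : List (ℤ × List ℕ × List (Lr k)),
      (∀ e ∈ L, (e.2.1 = [] ∨ Ad e.2.1 ∧ e.2.1 ∈ S) ∧ Gd e.2.2 ∧
        ∀ N s, Big N s (w i) → ∀ a ∈ (ix s e.2.2).head?, N ≤ a) ∧
      ∀ (A : Type) [CommRing A] (Z : List ℕ → A),
        (∀ u v, Ad u → Ad v → Z u * Z v = ((sti u v).map Z).sum) →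
        ∀ s : Fin k → ℕ, (∀ j, 2 ≤ s j) → ex Z (ix s (w i)) =
          (L.map fun e => (e.1 : A) * (ex Z e.2.1 * ex Z (ix s e.2.2))).sum := by
    intro i
    obtain ⟨v, h2, h3⟩ := exists_prefix2 (w i) (hw i).2
    have hge : Ge (fp (fpx (w i)) ++ v) := by
      rw [← h3]
      exact hw i
    obtain ⟨L, hL1, hL2⟩ := dec3 (fpx (w i)).length (fpx (w i)) le_rfl (ge_prefix hge) v h2
    have hbig : ∀ N s, Big N s (w i) → ∀ a ∈ (ix s v).head?, N ≤ a := by
      intro N s hb
      rw [h3] at hb
      exact hb.fp.of_gd h2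
    refine ⟨L, fun e he => ?_, fun A _ Z hZ s hs => ?_⟩
    · obtain ⟨g1, g2, g3, g4⟩ := hL1 e he
      by_cases h0 : e.2.1 = []
      · exact ⟨Or.inl h0, g3, fun N s hb => g4 N s (hbig N s hb)⟩
      · exact ⟨Or.inr ⟨g1.resolve_left h0, hS i _ g2 h0⟩, g3, fun N s hb => g4 N s (hbig N s hb)⟩
    · rw [h3, ix_append, ix_fp]
      exact hL2 A Z hZ s hs
  choose L hL1 hL2 using h1
  -- the variables
  set J : Type := Σ i : Fin r, Fin (L i).length with hJ
  set m : ℕ := Fintype.card J with hm
  let e : J ≃ Fin m := Fintype.equivFin J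
  let val : Fin m → ℤ × List ℕ × List (Lr k) := fun j => (L (e.symm j).1).get (e.symm j).2
  have hval : ∀ j, ((val j).2.1 = [] ∨ Ad (val j).2.1 ∧ (val j).2.1 ∈ S) ∧ Gd (val j).2.2 ∧
      ∀ N s, Big N s (w (e.symm j).1) → ∀ a ∈ (ix s (val j).2.2).head?, N ≤ a :=
    fun j => hL1 _ _ (List.get_mem _ _)
  have hvale : ∀ (i : Fin r) (j : Fin (L i).length), val (e ⟨i, j⟩) = (L i).get j := by
    intro i j
    show (L (e.symm (e ⟨i, j⟩)).1).get (e.symm (e ⟨i, j⟩)).2 = _
    rw [e.symm_apply_apply]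
  obtain ⟨G, hG1, hG2⟩ : ∃ G : Fin t ⊕ Fin r → MvPolynomial (Fin (t + m) ⊕ Fin m) ℤ,
      (∀ (A : Type) [CommRing A] (X' : Fin (t + m) → A) (Y' : Fin m → A) (j : Fin t),
        MvPolynomial.aeval (Sum.elim X' Y') (G (Sum.inl j)) = X' (Fin.castAdd m j)) ∧
      (∀ (A : Type) [CommRing A] (X' : Fin (t + m) → A) (Y' : Fin m → A) (i : Fin r),
        MvPolynomial.aeval (Sum.elim X' Y') (G (Sum.inr i)) = ∑ j : Fin (L i).length,
          ((((L i).get j).1 : ℤ) : A) * (X' (Fin.natAdd t (e ⟨i, j⟩)) * Y' (e ⟨i, j⟩))) := by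
    refine ⟨Sum.elim (fun j => MvPolynomial.X (Sum.inl (Fin.castAdd m j)))
      (fun i => ∑ j : Fin (L i).length, ((((L i).get j).1 : ℤ) : MvPolynomial _ ℤ) *
        (MvPolynomial.X (Sum.inl (Fin.natAdd t (e ⟨i, j⟩))) * MvPolynomial.X (Sum.inr (e ⟨i, j⟩)))),
      fun A _ X' Y' j => ?_, fun A _ X' Y' i => ?_⟩
    · simp
    · simp
  obtain ⟨D', S', hS', hsub⟩ := subst_bound G D
  obtain ⟨K, hK⟩ := fewH (t + m) k m D' (fun j => (val j).2.2) (fun j => (hval j).2.1) κ
  refine ⟨K, fun C x => ?_⟩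
  set x' : Fin (t + m) → ℂ := Fin.append x fun j => ((mz (val j).2.1 : ℝ) : ℂ) with hx'
  obtain ⟨N0, hN0⟩ := hK ((1 + |C|) * (1 + S')) x'
  refine ⟨N0 + 2, fun N hN => (hN0 N (by omega)).mono fun s hs => ?_⟩
  obtain ⟨hs1, hb, P, hPD, hPC, hP0, hPne⟩ := hs
  have hs2 : ∀ j, 2 ≤ s j := fun j => (hs1 j).1
  -- the value of the new polynomial
  have hcomp : ∀ (A : Type) [CommRing A] (y : Fin t → A) (Z : List ℕ → A),
      (∀ u v, Ad u → Ad v → Z u * Z v = ((sti u v).map Z).sum) →
      MvPolynomial.aeval (Sum.elim (Fin.append y fun j => ex Z (val j).2.1)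
        fun j => ex Z (ix s (val j).2.2)) (MvPolynomial.aeval G P : MvPolynomial _ ℤ) =
      MvPolynomial.aeval (Sum.elim y fun i => ex Z (ix s (w i))) P := by
    intro A _ y Z hZ
    rw [← AlgHom.comp_apply]
    congr 1
    refine MvPolynomial.algHom_ext fun i => ?_
    rw [AlgHom.comp_apply, MvPolynomial.aeval_X, MvPolynomial.aeval_X]
    cases i with
    | inl j =>
      rw [hG1, Fin.append_left]
      rfl
    | inr i =>
      rw [hG2, Sum.elim_inr, hL2 i A Z hZ s hs2, sum_list]
      refine sum_congr rfl fun j _ => ?_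
      rw [Fin.append_right, hvale]
  refine ⟨hs1, fun j => (hval j).2.2 N s (hb _), MvPolynomial.aeval G P, (hsub P hPD).1, fun m' => ?_, ?_,
    fun hT => hPne ?_⟩
  · have hCN : ∀ m, |((P.coeff m : ℤ) : ℝ)| ≤ |C| ^ N := fun m =>
        (hPC m).trans ((le_abs_self _).trans (abs_pow _ _).le)
    refine ((hsub P hPD).2 (|C| ^ N) (by positivity) hCN m').trans ?_
    rw [mul_pow]
    refine mul_le_mul (pow_le_pow_left₀ (abs_nonneg _) (by linarith) _) ?_ hS' (by positivity)
    exact (by linarith : S' ≤ 1 + S').trans (le_self_pow₀ (by linarith) (by omega))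
  · have h2 := hcomp ℂ x (fun u => ((mz u : ℝ) : ℂ)) mz_stuffle_C
    simp only [ex_mz] at h2
    rw [hx', h2, hP0]
  · intro A _ _ y Z hR hZ
    rw [← hcomp A y Z hZ]
    refine hT A _ Z (fun Q hQ => ?_) hZ
    -- the relations
    set ψ : Fin (t + m) → MvPolynomial (Fin t ⊕ {p : List ℕ // Ad p ∧ p ∈ S}) ℤ :=
      Fin.append (fun j => MvPolynomial.X (Sum.inl j)) fun j =>
        if h : Ad (val j).2.1 ∧ (val j).2.1 ∈ S then MvPolynomial.X (Sum.inr ⟨(val j).2.1, h⟩) else 1
      with hψ
    have hψ' : ∀ (A : Type) [CommRing A] (y : Fin t → A) (Z : List ℕ → A),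
        MvPolynomial.aeval (Sum.elim y fun p : {p : List ℕ // Ad p ∧ p ∈ S} => Z p.1)
          (MvPolynomial.aeval ψ Q : MvPolynomial _ ℤ) =
        MvPolynomial.aeval (Fin.append y fun j => ex Z (val j).2.1) Q := by
      intro A _ y Z
      rw [← AlgHom.comp_apply]
      congr 1
      refine MvPolynomial.algHom_ext fun i => ?_
      rw [AlgHom.comp_apply, MvPolynomial.aeval_X, MvPolynomial.aeval_X]
      refine Fin.addCases (fun j => ?_) (fun j => ?_) i
      · rw [hψ, Fin.append_left, Fin.append_left, MvPolynomial.aeval_X, Sum.elim_inl]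
      · rw [hψ, Fin.append_right, Fin.append_right]
        rcases (hval j).1 with h | h
        · rw [dif_neg (by rw [h]; exact fun h => h.1), map_one, h, ex_nil]
        · rw [dif_pos h, MvPolynomial.aeval_X, Sum.elim_inr, ex_ne Z (ad_ne h.1)]
    rw [← hψ']
    refine hR _ ?_
    rw [hψ' ℂ x fun u => ((mz u : ℝ) : ℂ)]
    simp only [ex_mz]
    exact hQ

end Pool.Agent.U553.HY
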