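import Pool.Agent.U553.HY.Split

/-!
# Different patterns are linearly independent off few hyperplanes, if their fronts are
-/

set_option autoImplicit false

namespace Pool.Agent.U553.HY

open Finset Pool.Agent.X90.DC Pool.Agent.N665.LP
open Pool.Agent.Y760.ZG (mz)
open Pool.Agent.Y760.ZF (sti)
open Pool.Agent.X90.DB (Ad ex ex_nil ex_ne ad_ne ix)
open Pool.Agent.X90.DK (Mot)
open Pool.Agent.N758.MT

/-- there is no nontrivial relation with coefficients at most `B` between the values -/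
def NoRel {k r : ℕ} (w : Fin r → List (Lr k)) (B : ℝ) (s : Fin k → ℕ) : Prop :=
  ∀ c : Fin r → ℤ, (∀ i, |(c i : ℝ)| ≤ B) → ∑ i, (c i : ℝ) * mz (ix s (w i)) = 0 → c = 0

lemma NoRel.mono {k r : ℕ} {w : Fin r → List (Lr k)} {B B' : ℝ} {s : Fin k → ℕ} (h : B ≤ B')
    (h' : NoRel w B' s) : NoRel w B s := fun c hc => h' c fun i => (hc i).trans h

/-- **different patterns** -/
theorem indepH {k r : ℕ} (w : Fin r → List (Lr k)) (hw : ∀ i, Ge (w i)) (hinj : Function.Injective w)
    (hF : (LinearIndependent ℚ fun q : {q : List ℕ // ∃ i, q <+: fpx (w i)} => mz q.1) ∨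
      ((∀ i j (s : Fin k → ℕ), (ix s (w i)).sum = (ix s (w j)).sum) ∧
        ∀ n, LinearIndependent ℚ fun q : {q : List ℕ // q.sum = n ∧ ∃ i, q <+: fpx (w i)} => mz q.1)) :
    OffH w (NoRel w) := by
  classical
  intro κ
  set Λ : Finset (List (Lr k)) := univ.image w with hΛdef
  have hΛ : ∀ v ∈ Λ, Ge v := by
    intro v hv
    obtain ⟨i, -, rfl⟩ := mem_image.1 hv
    exact hw i
  obtain ⟨Q, b, hQ, hb⟩ := exists_coeffU Λ hΛ
  have hQ' : ∀ p ∈ Q, (p.1 = [] ∨ Ad p.1) ∧ Gd p.2 := fun p hp => by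
    obtain ⟨w, _, h1, _, h2, _⟩ := hQ p hp
    exact ⟨h1, h2.1⟩
  obtain ⟨K, hK⟩ := splitH Λ Q b hQ' hb κ
  refine ⟨K, fun C => ?_⟩
  obtain ⟨N₀, hN₀⟩ := hK C
  refine ⟨N₀, fun N hN => (hN₀ N hN).mono ?_⟩
  rintro s ⟨hs, hs'⟩
  refine ⟨hs.1, fun p hp => ?_, ?_⟩
  · obtain ⟨v, hv, _, _, h2, _⟩ := hQ p hp
    obtain ⟨i, -, rfl⟩ := mem_image.1 hv
    exact h2.2 N s (hs.2 i).big
  rw [NoRel] at hs'
  push Not at hs'
  obtain ⟨c, hc, hrel, hne⟩ := hs'
  set c' : List (Lr k) → ℤ := fun v => if h : ∃ i, w i = v then c h.choose else 0 with hc'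
  have hcw : ∀ i, c' (w i) = c i := by
    intro i
    have h : ∃ i', w i' = w i := ⟨i, rfl⟩
    rw [hc']
    simp only
    rw [dif_pos h]
    exact congrArg c (hinj h.choose_spec)
  refine ⟨c', fun v hv => ?_, ?_, fun hv => hne ?_⟩
  · obtain ⟨i, -, rfl⟩ := mem_image.1 hv
    rw [hcw]
    exact hc i
  · rw [hΛdef, sum_image fun i _ j _ h => hinj h, ← hrel]
    exact sum_congr rfl fun i _ => by rw [hcw]
  · set ρ : List ℕ × List (Lr k) → ℤ := fun p => ∑ v ∈ Λ, c' v * b v p with hρ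
    -- all the coefficients are zero
    have hfr : ∀ p ∈ Q, ∃ i, p.1 <+: fpx (w i) ∧ p.1.sum + (ix s p.2).sum = (ix s (w i)).sum := by
      intro p hp
      obtain ⟨v, hv', _, g2, _, _, g5⟩ := hQ p hp
      obtain ⟨i, -, rfl⟩ := mem_image.1 hv'
      refine ⟨i, g2, ?_⟩
      have e1 := congrArg Prod.fst g5
      have e2 := congrArg Prod.snd g5
      rw [Prod.fst_add, fp_sum_fst] at e1
      rw [Prod.snd_add, fp_sum_snd, zero_add] at e2
      rw [ix_sum, ix_sum, ← e1, ← e2]
      ring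
    have hzero : ∀ p ∈ Q, ρ p = 0 := by
      intro p hp
      have h1 := hv p.2
      set T := Q.filter fun p' => p'.2 = p.2 with hT
      have hpT : p ∈ T := mem_filter.2 ⟨hp, rfl⟩
      have hT1 : ∀ p' ∈ T, ∀ p'' ∈ T, p'.1 = p''.1 → p' = p'' := fun p' h' p'' h'' h =>
        Prod.ext h ((mem_filter.1 h').2.trans (mem_filter.1 h'').2.symm)
      -- the general argument
      have key : ∀ (X : Type) (f : X → List ℕ), (LinearIndependent ℚ fun q : X => mz (f q)) →
          (∀ p' ∈ T, ∃ q, f q = p'.1) → ρ p = 0 := by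
        intro X f hli hf
        have : Nonempty X := ⟨(hf p hpT).choose⟩
        choose! g hg using hf
        have hginj : ∀ p' ∈ T, ∀ p'' ∈ T, g p' = g p'' → p' = p'' := by
          intro p' h' p'' h'' h
          refine hT1 p' h' p'' h'' ?_
          rw [← hg p' h', ← hg p'' h'', h]
        have h2 := linearIndependent_iff'.1 hli (T.image g) (fun q => if hq : ∃ p' ∈ T, g p' = q then
          ((ρ hq.choose : ℤ) : ℚ) else 0) (by
          rw [sum_image fun p' h' p'' h'' h => hginj p' h' p'' h'' h]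
          rw [← h1]
          refine sum_congr rfl fun p' h' => ?_
          have hq : ∃ p'' ∈ T, g p'' = g p' := ⟨p', h', rfl⟩
          rw [dif_pos hq, hginj _ hq.choose_spec.1 _ h' hq.choose_spec.2, hg p' h', Rat.smul_def,
            Rat.cast_intCast])
        have h3 := h2 (g p) (mem_image_of_mem _ hpT)
        have hq : ∃ p'' ∈ T, g p'' = g p := ⟨p, hpT, rfl⟩
        rw [dif_pos hq, hginj _ hq.choose_spec.1 _ hpT hq.choose_spec.2] at h3
        exact_mod_cast h3
      rcases hF with hF | ⟨hwt, hF⟩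
      · refine key _ (fun q : {q : List ℕ // ∃ i, q <+: fpx (w i)} => q.1) hF fun p' h' => ?_
        obtain ⟨i, hi, -⟩ := hfr p' (mem_filter.1 h').1
        exact ⟨⟨p'.1, i, hi⟩, rfl⟩
      · refine key _ (fun q : {q : List ℕ // q.sum = p.1.sum ∧ ∃ i, q <+: fpx (w i)} => q.1) (hF _) fun p' h' => ?_
        obtain ⟨i, hi, hi'⟩ := hfr p' (mem_filter.1 h').1
        obtain ⟨j, hj, hj'⟩ := hfr p hp
        refine ⟨⟨p'.1, ?_, i, hi⟩, rfl⟩
        have e := hwt i j s
        rw [(mem_filter.1 h').2] at hi'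
        omega
    -- the coefficients of the patterns
    funext i
    have h3 : ∀ v ∈ Λ, (if v = w i then (1 : ℤ) else 0) =
        ∑ p ∈ Q, b v p * (((psti (fp p.1) p.2).map fun z => if z = w i then (1 : ℤ) else 0)).sum := by
      intro v hv
      have h4 := hb ℤ (fun z => if z = w i then (1 : ℤ) else 0) v hv
      rw [h4]
      exact sum_congr rfl fun p _ => by rw [smul_eq_mul]
    have h5 : c' (w i) = ∑ v ∈ Λ, c' v * (if v = w i then (1 : ℤ) else 0) := by
      simp only [mul_ite, mul_one, mul_zero]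
      rw [sum_ite_eq', if_pos (mem_image_of_mem _ (mem_univ i))]
    rw [← hcw, h5, sum_congr rfl fun v hv => by rw [h3 v hv, mul_sum], sum_comm]
    refine sum_eq_zero fun p hp => ?_
    have h6 : ∑ v ∈ Λ, c' v * (b v p * (((psti (fp p.1) p.2).map fun z => if z = w i then (1 : ℤ) else 0)).sum) =
        ρ p * (((psti (fp p.1) p.2).map fun z => if z = w i then (1 : ℤ) else 0)).sum := by
      rw [hρ]
      simp only
      rw [sum_mul]
      exact sum_congr rfl fun v _ => by ring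
    rw [h6, hzero p hp, zero_mul]

end Pool.Agent.U553.HY
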