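import Pool.Agent.U553.HY.Indep

/-!
# The converse: the fronts are linearly independent if the patterns with one variable are, at one argument
-/

set_option autoImplicit false

namespace Pool.Agent.U553.HY

open Finset Pool.Agent.X90.DC Pool.Agent.N665.LP
open Pool.Agent.Y760.ZG (mz)
open Pool.Agent.Y760.ZF (sti)
open Pool.Agent.X90.DB (Ad ex ex_nil ex_ne ad_ne ix)
open Pool.Agent.X90.DK (Mot)
open Pool.Agent.N758.MT

/-- the variable as a letter -/
def lt1 : Lr 1 := (0, fun _ => 1)

lemma lt1_ne : lt1.2 ≠ 0 := fun h => absurd (congrFun h 0) one_ne_zero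

lemma count_end (q : List ℕ) : (∀ b ∈ q, 1 ≤ b) → ∀ q₀ : List ℕ,
    (psti (fp q) [lt1]).count (fp q₀ ++ [lt1]) = if q = q₀ then 1 else 0 := by
  classical
  induction q with
  | nil =>
    intro _ q₀
    have e : (fp [] : List (Lr 1)) = [] := rfl
    rw [e, psti]
    cases q₀ with
    | nil => simp [e]
    | cons a q₀ =>
      have e2 : (fp (a :: q₀) : List (Lr 1)) = (a, 0) :: fp q₀ := rfl
      rw [if_neg (List.cons_ne_nil _ _).symm, List.count_eq_zero, List.mem_singleton, e2]
      intro h
      rw [List.cons_append, List.cons.injEq] at h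
      exact lt1_ne (by rw [← h.1])
  | cons b q ih =>
    intro hq q₀
    have ih' := ih (fun a ha => hq a (List.mem_cons_of_mem _ ha))
    have e : (fp (b :: q) : List (Lr 1)) = (b, 0) :: fp q := rfl
    have e3 : psti (fp (b :: q)) [lt1] = (psti (fp q) [lt1]).map ((b, 0) :: ·) ++
        [lt1 :: fp (b :: q)] ++ [((b, 0) + lt1) :: fp q] := by
      rw [e, psti, ← e, Pool.Agent.N758.MT.psti_nil, Pool.Agent.N758.MT.psti_nil]
      rfl
    rw [e3, List.count_append, List.count_append]
    cases q₀ with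
    | nil =>
      have e0 : (fp [] ++ [lt1] : List (Lr 1)) = [lt1] := rfl
      rw [e0, if_neg (List.cons_ne_nil _ _)]
      have h1 : ((psti (fp q) [lt1]).map ((b, 0) :: ·)).count [lt1] = 0 := by
        rw [List.count_eq_zero, List.mem_map]
        rintro ⟨z, _, hz⟩
        rw [List.cons.injEq] at hz
        exact lt1_ne (by rw [← hz.1])
      have h2 : [lt1 :: (fp (b :: q) : List (Lr 1))].count [lt1] = 0 := by
        rw [List.count_eq_zero, List.mem_singleton]
        intro h
        rw [List.cons.injEq] at h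
        exact absurd h.2.symm (List.cons_ne_nil _ _)
      have h3 : [((b, 0) + lt1) :: (fp q : List (Lr 1))].count [lt1] = 0 := by
        rw [List.count_eq_zero, List.mem_singleton]
        intro h
        rw [List.cons.injEq] at h
        have h4 := congrArg Prod.fst h.1
        have h5 := hq b List.mem_cons_self
        simp only [lt1, Prod.fst_add] at h4
        omega
      rw [h1, h2, h3]
    | cons a q₀ =>
      have e2 : (fp (a :: q₀) ++ [lt1] : List (Lr 1)) = (a, 0) :: (fp q₀ ++ [lt1]) := rfl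
      rw [e2]
      have h2 : [lt1 :: (fp (b :: q) : List (Lr 1))].count ((a, 0) :: (fp q₀ ++ [lt1])) = 0 := by
        rw [List.count_eq_zero, List.mem_singleton]
        intro h
        rw [List.cons.injEq] at h
        exact lt1_ne (by rw [← h.1])
      have h3 : [((b, 0) + lt1) :: (fp q : List (Lr 1))].count ((a, 0) :: (fp q₀ ++ [lt1])) = 0 := by
        rw [List.count_eq_zero, List.mem_singleton]
        intro h
        rw [List.cons.injEq] at h
        have h4 := congrArg Prod.snd h.1
        rw [Prod.snd_add] at h4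
        exact lt1_ne (by simpa using h4.symm)
      rw [h2, h3, add_zero, add_zero]
      by_cases hab : a = b
      · subst hab
        rw [List.count_map_of_injective _ _ (List.cons_injective), ih' q₀]
        by_cases hqq : q = q₀
        · rw [if_pos hqq, if_pos (by rw [hqq])]
        · rw [if_neg hqq, if_neg (fun h => hqq (List.cons.inj h).2)]
      · rw [if_neg (fun h => hab (List.cons.inj h).1.symm), List.count_eq_zero, List.mem_map]
        rintro ⟨z, _, hz⟩
        rw [List.cons.injEq] at hz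
        exact hab (congrArg Prod.fst hz.1).symm

lemma sum_count (L : List (List (Lr 1))) (P : Finset (List (Lr 1))) (hL : ∀ v ∈ L, v ∈ P) (f : List (Lr 1) → ℝ) :
    (L.map f).sum = ∑ v ∈ P, ((L.count v : ℕ) : ℝ) * f v := by
  induction L with
  | nil => simp
  | cons a L ih =>
    rw [List.map_cons, List.sum_cons, ih fun v hv => hL v (List.mem_cons_of_mem _ hv)]
    have h1 : ∀ v ∈ P, (((a :: L).count v : ℕ) : ℝ) * f v =
        ((L.count v : ℕ) : ℝ) * f v + if a = v then f v else 0 := by
      intro v _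
      by_cases h : a = v
      · subst h
        rw [List.count_cons_self, if_pos rfl]
        push_cast
        ring
      · rw [List.count_cons_of_ne h, if_neg h, add_zero]
    rw [sum_congr rfl h1, sum_add_distrib, sum_ite_eq, if_pos (hL a List.mem_cons_self)]
    ring

/-- **the converse**: one good argument is enough -/
theorem indep_of_one (Q T : Set (List ℕ)) (hQ : ∀ q ∈ Q, q = [] ∨ Ad q) (hTQ : T ⊆ Q)
    (hcl : ∀ q ∈ Q, ∀ q', q' <+: q → q' ∈ Q)
    (h : ∀ (r : ℕ) (w : Fin r → List (Lr 1)), Function.Injective w →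
      (∀ i, Ge (w i) ∧ fpx (w i) ∈ Q ∧ (∃ u ∈ w i, u.2 ≠ 0) ∧
        ∃ q ∈ T, ∀ s : Fin 1 → ℕ, (ix s (w i)).sum = q.sum + s 0) → ∀ B : ℝ, ∃ s : Fin 1 → ℕ, 2 ≤ s 0 ∧
      NoRel w B s) : LinearIndependent ℚ fun q : T => mz q.1 := by
  classical
  rw [linearIndependent_iff']
  intro I l hl q₁ hq₁
  by_contra hne
  -- integer coefficients
  obtain ⟨Δ, hΔ, z, hz⟩ := Pool.Agent.X90.DA.common_den fun q : I => l q.1
  have hrel : ∑ q : I, (z q : ℝ) * mz q.1.1 = 0 := by
    have h1 : (Δ : ℝ) * ∑ q ∈ I, l q • mz q.1 = ∑ q : I, (z q : ℝ) * mz q.1.1 := by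
      rw [← sum_coe_sort, mul_sum]
      refine sum_congr rfl fun q _ => ?_
      have h2 := congrArg (fun x : ℚ => (x : ℝ)) (hz q)
      push_cast at h2
      rw [← h2, Rat.smul_def]
      ring
    rw [← h1, hl, mul_zero]
  have hzne : z ⟨q₁, hq₁⟩ ≠ 0 := by
    intro h0
    have h1 := hz ⟨q₁, hq₁⟩
    rw [h0, Int.cast_zero] at h1
    rcases mul_eq_zero.1 h1 with h2 | h2
    · exact hΔ (by exact_mod_cast h2)
    · exact hne h2
  have hT : ∀ q : I, q.1.1 ∈ T := fun q => q.1.2
  have hA : ∀ q : I, q.1.1 = [] ∨ Ad q.1.1 := fun q => hQ _ (hTQ (hT q))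
  have hpos : ∀ q : I, ∀ b ∈ q.1.1, 1 ≤ b := by
    intro q b hb
    rcases hA q with h | h
    · rw [h] at hb
      exact absurd hb List.not_mem_nil
    · exact h.pos b hb
  -- the patterns
  set P : Finset (List (Lr 1)) := univ.biUnion fun q : I => (psti (fp q.1.1) [lt1]).toFinset with hP
  set e : P ≃ Fin P.card := P.equivFin with he
  set c : List (Lr 1) → ℤ := fun v => ∑ q : I, z q * ((psti (fp q.1.1) [lt1]).count v : ℤ) with hc
  obtain ⟨B, hB⟩ : ∃ B : ℝ, ∀ v ∈ P, |(c v : ℝ)| ≤ B :=
    ⟨∑ v ∈ P, |(c v : ℝ)|, fun v hv => single_le_sum (f := fun v => |(c v : ℝ)|) (fun _ _ => abs_nonneg _) hv⟩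
  have hw : ∀ v ∈ P, ∃ q : I, v ∈ psti (fp q.1.1) [lt1] := by
    intro v hv
    obtain ⟨q, -, hq⟩ := mem_biUnion.1 hv
    exact ⟨q, List.mem_toFinset.1 hq⟩
  obtain ⟨s, hs, hL⟩ := h P.card (fun i => (e.symm i).1) (fun i j hij => e.symm.injective (Subtype.ext hij))
    (fun i => by
      obtain ⟨q, hq⟩ := hw _ (e.symm i).2
      obtain ⟨h1, h2, h3, h4, h5⟩ := psti_one lt1 lt1_ne _ _ hq
      have hqA := hA q
      refine ⟨⟨fun u hu => ?_, fun u hu => ?_⟩, hcl _ (hTQ (hT q)) _ h1, h2, q.1.1, hT _, fun s => ?_⟩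
      · rcases h5 u hu with h | h
        · exact Or.inl h
        · right
          rcases hqA with hq' | hq'
          · rw [hq'] at h
            simp at h
          · cases hq'' : q.1.1 with
            | nil => rw [hq''] at h; simp at h
            | cons a t =>
              rw [hq''] at h hq'
              simp only [List.head?_cons, Option.mem_some_iff] at h
              rw [← h]
              exact hq'.1
      · rcases h4 u hu with h | h
        · exact Or.inl h
        · exact Or.inr (hpos q _ h)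
      · rw [h3 s]
        simp [lt1]) B
  have hAs : Ad [s 0] := ⟨hs, by simp⟩
  have hsum : ∑ i : Fin P.card, (c (e.symm i).1 : ℝ) * mz (ix s (e.symm i).1) =
      (∑ q : I, (z q : ℝ) * mz q.1.1) * mz [s 0] := by
    rw [e.symm.sum_comp (fun v : P => (c v.1 : ℝ) * mz (ix s v.1)),
      sum_coe_sort P (fun v => (c v : ℝ) * mz (ix s v)), sum_mul]
    have h1 : ∀ q : I, mz q.1.1 * mz [s 0] =
        ∑ v ∈ P, (((psti (fp q.1.1) [lt1]).count v : ℤ) : ℝ) * mz (ix s v) := by
      intro q
      have h1 : mz q.1.1 * mz [s 0] = ((sti q.1.1 [s 0]).map mz).sum := RM.mul' _ _ (hA q) (Or.inr hAs)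
      have h2 : sti q.1.1 [s 0] = (psti (fp q.1.1) [lt1]).map (ix s) := by
        rw [← ix_psti, ix_fp]
        congr 1
        simp [ix, lt1]
      rw [h1, h2, List.map_map, sum_count _ P (fun v hv => mem_biUnion.2 ⟨q, mem_univ _, List.mem_toFinset.2 hv⟩)]
      refine sum_congr rfl fun v _ => ?_
      rw [Int.cast_natCast]
      rfl
    rw [sum_congr rfl fun q (_ : q ∈ (univ : Finset I)) => by rw [mul_assoc, h1 q, mul_sum], sum_comm]
    refine sum_congr rfl fun v _ => ?_
    rw [hc]
    push_cast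
    rw [sum_mul]
    exact sum_congr rfl fun q _ => by ring
  have h3 := hL (fun i => c (e.symm i).1) (fun i => hB _ (e.symm i).2) (by
    rw [hsum, hrel, zero_mul])
  have hv₀ : fp q₁.1 ++ [lt1] ∈ P := by
    refine mem_biUnion.2 ⟨⟨q₁, hq₁⟩, mem_univ _, List.mem_toFinset.2 ?_⟩
    rw [← List.count_pos_iff, count_end _ (hpos ⟨q₁, hq₁⟩), if_pos rfl]
    exact one_pos
  have h4 := congrFun h3 (e ⟨_, hv₀⟩)
  simp only [Equiv.symm_apply_apply, Pi.zero_apply] at h4
  apply hzne
  rw [← h4, hc]
  simp only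
  rw [sum_eq_single (⟨q₁, hq₁⟩ : I)]
  · rw [count_end _ (hpos ⟨q₁, hq₁⟩), if_pos rfl]
    simp
  · intro q _ hq
    rw [count_end _ (hpos q), if_neg]
    · simp
    · intro h5
      exact hq (Subtype.ext (Subtype.ext h5))
  · intro h5
    exact absurd (mem_univ _) h5

end Pool.Agent.U553.HY
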