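import Pool.Agent.U553.HY.Depth
import Pool.Agent.N758.MT.C

/-!
# Linear relations split off few hyperplanes; lifting of relations
-/

set_option autoImplicit false

namespace Pool.Agent.U553.HY

open Finset Pool.Agent.X90.DC Pool.Agent.N665.LP
open Pool.Agent.Y760.ZG (mz)
open Pool.Agent.Y760.ZF (sti)
open Pool.Agent.X90.DB (Ad ex ex_nil ex_ne ad_ne ix)
open Pool.Agent.X90.DK (Mot)
open Pool.Agent.N758.MT

/-- a property outside few hyperplanes -/
def OffH {k r : ℕ} (w : Fin r → List (Lr k)) (P : ℝ → (Fin k → ℕ) → Prop) : Prop :=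
  ∀ κ : ℕ, ∃ K : ℕ, ∀ C : ℝ, ∃ N₀ : ℕ, ∀ N : ℕ, N₀ ≤ N → OnHyperplanes K {s | s ∈ Range w κ N ∧ ¬ P (C ^ N) s}

lemma OffH.mono {k r : ℕ} {w : Fin r → List (Lr k)} {P Q : ℝ → (Fin k → ℕ) → Prop} (h : OffH w P)
    (hPQ : ∀ B s, (∀ j, 2 ≤ s j) → P B s → Q B s) : OffH w Q := by
  intro κ
  obtain ⟨K, hK⟩ := h κ
  refine ⟨K, fun C => ?_⟩
  obtain ⟨N₀, hN₀⟩ := hK C
  refine ⟨N₀, fun N hN => (hN₀ N hN).mono ?_⟩
  rintro s ⟨hs, hs'⟩
  exact ⟨hs, fun hP => hs' (hPQ _ s (fun j => (hs.1 j).1) hP)⟩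

/-- **linear relations split off few hyperplanes** -/
theorem splitL {k r : ℕ} (w : Fin r → List (Lr k)) (hw : ∀ i, Ge (w i)) :
    OffH w fun B s => ∀ c : Fin r → ℤ, (∀ i, |(c i : ℝ)| ≤ B) →
      ∑ i, (c i : ℝ) * mz (ix s (w i)) = 0 → Spl w s c := by
  classical
  intro κ
  set Λ : Finset (List (Lr k)) := univ.image w with hΛdef
  have hΛ : ∀ v ∈ Λ, Ge v := by
    intro v hv
    obtain ⟨i, -, rfl⟩ := mem_image.1 hv
    exact hw i
  obtain ⟨Q, b, hQ, hb⟩ := exists_coeffU Λ hΛ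
  have hQ' : ∀ p ∈ Q, (p.1 = [] ∨ Ad p.1) ∧ Gd p.2 := fun p hp => by
    obtain ⟨w, _, h1, _, h2, _⟩ := hQ p hp
    exact ⟨h1, h2.1⟩
  obtain ⟨K, hK⟩ := splitH Λ Q b hQ' hb κ
  refine ⟨K, fun C => ?_⟩
  obtain ⟨N₀, hN₀⟩ := hK ((1 + |C|) * (1 + r))
  refine ⟨N₀ + 1, fun N hN => (hN₀ N (by omega)).mono ?_⟩
  rintro s ⟨hs, hs'⟩
  have hs2 : ∀ j, 2 ≤ s j := fun j => (hs.1 j).1
  refine ⟨hs.1, fun p hp => ?_, ?_⟩
  · obtain ⟨v, hv, _, _, h2, _⟩ := hQ p hp
    obtain ⟨i, -, rfl⟩ := mem_image.1 hv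
    exact h2.2 N s (hs.2 i).big
  push Not at hs'
  obtain ⟨c, hc, hrel, hns⟩ := hs'
  set c' : List (Lr k) → ℤ := fun v => ∑ i with w i = v, c i with hc'
  have hsumc : ∀ (A : Type) [CommRing A] (F : List (Lr k) → A),
      ∑ v ∈ Λ, (c' v : A) * F v = ∑ i, (c i : A) * F (w i) := by
    intro A _ F
    rw [← sum_fiberwise_of_maps_to (s := univ) (t := Λ) (g := w) (fun i _ => mem_image_of_mem _ (mem_univ i))]
    refine sum_congr rfl fun v _ => ?_
    rw [hc']
    push_cast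
    rw [sum_mul]
    exact sum_congr rfl fun i hi => by rw [(mem_filter.1 hi).2]
  refine ⟨c', fun v _ => ?_, ?_, fun hv => hns ?_⟩
  · have h1 : |(c' v : ℝ)| ≤ r * |C| ^ N := by
      rw [hc']
      push_cast
      refine (abs_sum_le_sum_abs _ _).trans ?_
      refine (sum_le_sum fun i _ => (hc i).trans ((le_abs_self _).trans (abs_pow _ _).le)).trans ?_
      rw [sum_const, nsmul_eq_mul]
      refine mul_le_mul_of_nonneg_right ?_ (by positivity)
      have h2 : (univ.filter fun i => w i = v).card ≤ r := (card_filter_le _ _).trans (by simp)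
      exact_mod_cast h2
    refine h1.trans ?_
    rw [mul_pow, mul_comm]
    refine mul_le_mul (pow_le_pow_left₀ (abs_nonneg _) (by linarith) _) ?_ (Nat.cast_nonneg _) (by positivity)
    exact (by linarith : (r : ℝ) ≤ 1 + r).trans (le_self_pow₀ (by linarith [Nat.cast_nonneg (α := ℝ) r]) (by omega))
  · have h1 := hsumc ℝ fun v => mz (ix s v)
    rw [h1]
    exact hrel
  · -- the splitting
    set ρ : List ℕ × List (Lr k) → ℤ := fun p => ∑ v ∈ Λ, c' v * b v p with hρ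
    set d : List ℕ → (List ℕ →₀ ℤ) := fun u => ∑ p ∈ Q with ix s p.2 = u, Finsupp.single p.1 (ρ p) with hd
    have hsum : ∀ (A : Type) [CommRing A] (Z : List ℕ → A) (u : List ℕ),
        (d u).sum (fun q b => (b : A) * Z q) = ∑ p ∈ Q with ix s p.2 = u, (ρ p : A) * Z p.1 := by
      intro A _ Z u
      simp only [hd]
      rw [← Finsupp.sum_finsetSum_index (fun q => by simp) (fun q b b' => by push_cast; ring)]
      exact sum_congr rfl fun j _ => Finsupp.sum_single_index (by simp)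
    refine ⟨Q.image fun p => ix s p.2, d, fun u _ => ⟨fun q hq => ?_, ?_⟩, fun A _ Z h1 hZ => ?_⟩
    · have h1 : ∃ p ∈ Q, ix s p.2 = u ∧ p.1 = q := by
        by_contra h
        push Not at h
        rw [Finsupp.mem_support_iff] at hq
        apply hq
        simp only [hd]
        rw [Finsupp.finsetSum_apply]
        refine sum_eq_zero fun j hj => ?_
        rw [mem_filter] at hj
        rw [Finsupp.single_apply, if_neg (h j hj.1 hj.2)]
      obtain ⟨p, hp, rfl, rfl⟩ := h1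
      obtain ⟨v, hv', _, g2, _, _, g5⟩ := hQ p hp
      obtain ⟨i, -, rfl⟩ := mem_image.1 hv'
      refine ⟨i, g2, ?_⟩
      have e1 := congrArg Prod.fst g5
      have e2 := congrArg Prod.snd g5
      rw [Prod.fst_add, fp_sum_fst] at e1
      rw [Prod.snd_add, fp_sum_snd, zero_add] at e2
      rw [ix_sum, ix_sum, ← e1, ← e2]
      ring
    · rw [hsum]
      rw [← sum_fiberwise_of_maps_to (s := Q.filter fun p => ix s p.2 = u) (t := Q.image Prod.snd)
        (g := Prod.snd) (fun p hp => mem_image_of_mem _ (mem_filter.1 hp).1)]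
      refine sum_eq_zero fun v _ => ?_
      by_cases hvu : ix s v = u
      · have e1 : ((Q.filter fun p => ix s p.2 = u).filter fun p => p.2 = v) = Q.filter fun p => p.2 = v := by
          rw [filter_filter]
          refine filter_congr fun p _ => ⟨fun h => h.2, fun h => ⟨by rw [h]; exact hvu, h⟩⟩
        rw [e1]
        exact hv v
      · refine sum_eq_zero fun p hp => ?_
        obtain ⟨hp1, hp2⟩ := mem_filter.1 hp
        exact absurd (hp2 ▸ (mem_filter.1 hp1).2) hvu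
    · rw [← hsumc A fun v => Z (ix s v)]
      have hprod : ∀ p ∈ Q, ((psti (fp p.1) p.2).map fun v => Z (ix s v)).sum = Z p.1 * Z (ix s p.2) := by
        intro p hp
        have h3 := ex_mul' (Z := Z) hZ (hQ' p hp).1 (ix_Ad hs2 (hQ' p hp).2)
        have h4 : sti p.1 (ix s p.2) = (psti (fp p.1) p.2).map (ix s) := by
          rw [← ix_psti, ix_fp]
        rw [h4, List.map_map, ex_eq h1, ex_eq h1] at h3
        rw [h3]
        congr 1
        refine List.map_congr_left fun z _ => ?_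
        rw [Function.comp, ex_eq h1]
      have h5 : ∀ v ∈ Λ, Z (ix s v) = ∑ p ∈ Q, (b v p : A) * (Z p.1 * Z (ix s p.2)) := by
        intro v hv
        have h6 := hb A (fun v => Z (ix s v)) v hv
        rw [h6]
        refine sum_congr rfl fun p hp => ?_
        rw [hprod p hp, zsmul_eq_mul]
      have h7 : ∑ v ∈ Λ, (c' v : A) * Z (ix s v) = ∑ p ∈ Q, (ρ p : A) * (Z p.1 * Z (ix s p.2)) := by
        rw [sum_congr rfl fun v hv => by rw [h5 v hv, mul_sum], sum_comm]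
        refine sum_congr rfl fun p _ => ?_
        rw [hρ]
        push_cast
        rw [sum_mul]
        exact sum_congr rfl fun v _ => by ring
      rw [h7]
      simp only [hsum]
      rw [← sum_fiberwise_of_maps_to (s := Q) (t := Q.image fun p => ix s p.2)
        (g := fun p => ix s p.2) (fun p hp => mem_image_of_mem (fun p : List ℕ × List (Lr k) => ix s p.2) hp)]
      refine sum_congr rfl fun u _ => ?_
      rw [sum_mul]
      refine sum_congr rfl fun p hp => ?_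
      rw [(mem_filter.1 hp).2]
      ring

/-- **lifting**: if the relations between fronts lift, so do the relations off few hyperplanes -/
theorem liftL {k r : ℕ} (G : Mot) (Q : Set (List ℕ)) (hcl : ∀ q ∈ Q, ∀ q', q' <+: q → q' ∈ Q)
    (w : Fin r → List (Lr k)) (hw : ∀ i, Ge (w i) ∧ fpx (w i) ∈ Q)
    (hinj : ∀ x ∈ Submodule.span ℚ (G.Z '' Q), G.per x = 0 → x = 0) : OffH w (Lft G w) := by
  refine (splitL w fun i => (hw i).1).mono fun B s _ h c hc hrel => ?_
  obtain ⟨U, d, h1, h2⟩ := h c hc hrel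
  rw [h2 G.H G.Z G.nil G.mul]
  refine sum_eq_zero fun u hu => ?_
  obtain ⟨g1, g2⟩ := h1 u hu
  suffices h0 : (d u).sum (fun q a => (a : G.H) * G.Z q) = 0 by rw [h0, zero_mul]
  refine hinj _ ?_ ?_
  · rw [Finsupp.sum]
    refine Submodule.sum_mem _ fun q hq => ?_
    obtain ⟨i, hi, -⟩ := g1 q hq
    rw [smul_int]
    exact Submodule.smul_mem _ _ (Submodule.subset_span ⟨q, hcl _ (hw i).2 q hi, rfl⟩)
  · rw [Finsupp.sum, map_sum]
    rw [Finsupp.sum] at g2
    have g3 := congrArg (fun x : ℝ => (x : ℂ)) g2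
    simp only [Complex.ofReal_sum, Complex.ofReal_zero] at g3
    rw [← g3]
    refine sum_congr rfl fun q hq => ?_
    obtain ⟨i, hi, -⟩ := g1 q hq
    rw [map_mul, map_intCast, G.per_Z' q (ad_prefix (fpx_ad (hw i).1) hi)]
    push_cast
    rfl

/-- **lifting of homogeneous relations** -/
theorem liftL_hom {k r : ℕ} (G : Mot) (Q : Set (List ℕ)) (hcl : ∀ q ∈ Q, ∀ q', q' <+: q → q' ∈ Q)
    (w : Fin r → List (Lr k)) (hw : ∀ i, Ge (w i) ∧ fpx (w i) ∈ Q)
    (hh : ∀ i j (s : Fin k → ℕ), (ix s (w i)).sum = (ix s (w j)).sum)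
    (hinj : ∀ n, ∀ x ∈ Submodule.span ℚ (G.Z '' {q ∈ Q | q.sum = n}), G.per x = 0 → x = 0) :
    OffH w (Lft G w) := by
  refine (splitL w fun i => (hw i).1).mono fun B s _ h c hc hrel => ?_
  obtain ⟨U, d, h1, h2⟩ := h c hc hrel
  rw [h2 G.H G.Z G.nil G.mul]
  refine sum_eq_zero fun u hu => ?_
  obtain ⟨g1, g2⟩ := h1 u hu
  by_cases hd : (d u).support = ∅
  · rw [Finsupp.sum, hd, sum_empty, zero_mul]
  obtain ⟨q0, hq0⟩ := Finset.nonempty_iff_ne_empty.2 hd
  obtain ⟨i0, -, hi0⟩ := g1 q0 hq0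
  suffices h0 : (d u).sum (fun q a => (a : G.H) * G.Z q) = 0 by rw [h0, zero_mul]
  refine hinj q0.sum _ ?_ ?_
  · rw [Finsupp.sum]
    refine Submodule.sum_mem _ fun q hq => ?_
    obtain ⟨i, hi, hi'⟩ := g1 q hq
    rw [smul_int]
    refine Submodule.smul_mem _ _ (Submodule.subset_span ⟨q, ⟨hcl _ (hw i).2 q hi, ?_⟩, rfl⟩)
    have := hh i i0 s
    omega
  · rw [Finsupp.sum, map_sum]
    rw [Finsupp.sum] at g2
    have g3 := congrArg (fun x : ℝ => (x : ℂ)) g2
    simp only [Complex.ofReal_sum, Complex.ofReal_zero] at g3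
    rw [← g3]
    refine sum_congr rfl fun q hq => ?_
    obtain ⟨i, hi, -⟩ := g1 q hq
    rw [map_mul, map_intCast, G.per_Z' q (ad_prefix (fpx_ad (hw i).1) hi)]
    push_cast
    rfl

/-- **lifting of polynomial relations** -/
theorem liftLP {k r : ℕ} (G : Mot) (Q : Set (List ℕ)) (hcl : ∀ q ∈ Q, ∀ q', q' <+: q → q' ∈ Q)
    (w : Fin r → List (Lr k)) (hw : ∀ i, Ge (w i) ∧ fpx (w i) ∈ Q) (D : ℕ)
    (hinj : ∀ x ∈ Algebra.adjoin ℚ (G.Z '' Q), G.per x = 0 → x = 0) : OffH w (LftP G w D) := by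
  classical
  intro κ
  obtain ⟨K, hK⟩ := genH 0 k r D w (fun i => (hw i).1) Q (fun i q hq _ => hcl _ (hw i).2 q hq) κ
  refine ⟨K, fun C => ?_⟩
  obtain ⟨N0, hN0⟩ := hK C Fin.elim0
  refine ⟨N0, fun N hN => (hN0 N hN).mono ?_⟩
  rintro s ⟨⟨hs1, hbig⟩, hs2⟩
  refine ⟨hs1, fun i => (hbig i).big, ?_⟩
  rw [LftP] at hs2
  push Not at hs2
  obtain ⟨P, hPD, hPC, hP0, hPne⟩ := hs2
  refine ⟨MvPolynomial.rename Sum.inr P, (MvPolynomial.totalDegree_rename_le _ _).trans hPD,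
    fun m => ?_, ?_, fun h => hPne ?_⟩
  · by_cases hm : ∃ m', Finsupp.mapDomain (Sum.inr : Fin r → Fin 0 ⊕ Fin r) m' = m
    · obtain ⟨m', rfl⟩ := hm
      rw [MvPolynomial.coeff_rename_mapDomain _ Sum.inr_injective]
      exact hPC m'
    · push Not at hm
      rw [MvPolynomial.coeff_rename_eq_zero _ _ _ fun u hu => absurd hu (hm u)]
      rw [Int.cast_zero, abs_zero]
      exact (abs_nonneg _).trans (hPC 0)
  · rw [MvPolynomial.aeval_rename]
    have h1 := aeval_C (fun i => mz (ix s (w i))) P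
    rw [hP0, Complex.ofReal_zero] at h1
    exact h1
  · have h2 := h G.H Fin.elim0 G.Z (fun R hR => ?_) G.mul
    · rw [MvPolynomial.aeval_rename] at h2
      rw [← h2]
      congr 2
      funext i
      exact (ex_eq G.nil _).symm
    · refine hinj _ ?_ ?_
      · refine aeval_mem _ _ (fun i => ?_) R
        rcases i with i | i
        · exact i.elim0
        · exact Algebra.subset_adjoin ⟨i.1, i.2.2, rfl⟩
      · have h3 : G.per (MvPolynomial.aeval (Sum.elim Fin.elim0 fun p : {p : List ℕ // Ad p ∧ p ∈ Q} => G.Z p.1) R) =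
            MvPolynomial.aeval (fun i => G.per ((Sum.elim Fin.elim0 fun p : {p : List ℕ // Ad p ∧ p ∈ Q} => G.Z p.1) i)) R :=
          MvPolynomial.comp_aeval_apply (f := Sum.elim Fin.elim0 fun p : {p : List ℕ // Ad p ∧ p ∈ Q} => G.Z p.1)
            G.per.toIntAlgHom R
        rw [h3, ← hR]
        congr 2
        funext i
        rcases i with i | i
        · exact i.elim0
        · exact G.per_Z _ i.2.1

/-- along dispersed families -/
def AlongD {k r : ℕ} (w : Fin r → List (Lr k)) (P : ℝ → (Fin k → ℕ) → Prop) : Prop :=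
  ∀ (κ : ℕ) (F : Fin k → ℕ → ℝ), Dispersed F → ∃ K : ℕ, ∀ C : ℝ, ∃ N₀ : ℕ, ∀ N : ℕ, N₀ ≤ N → ∀ W : ℕ,
    {n : ℕ | ∃ s ∈ Range w κ N, (∀ j, |(s j : ℝ) - F j n| ≤ W) ∧ ¬ P (C ^ N) s}.encard ≤ (K * (W + 1) : ℕ)

lemma OffH.along {k r : ℕ} {w : Fin r → List (Lr k)} {P : ℝ → (Fin k → ℕ) → Prop} (h : OffH w P) : AlongD w P := by
  intro κ F hF
  obtain ⟨K, hK⟩ := h κ
  obtain ⟨K', hK'⟩ := hF.few K
  refine ⟨K', fun C => ?_⟩
  obtain ⟨N₀, hN₀⟩ := hK C
  refine ⟨N₀, fun N hN W => (Set.encard_le_encard ?_).trans (hK' _ (hN₀ N hN) W)⟩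
  rintro n ⟨s, h1, h2, h3⟩
  exact ⟨s, ⟨h1, h3⟩, h2⟩

theorem dispersed_id : Dispersed (fun (_ : Fin 1) (n : ℕ) => (n : ℝ)) := by
  have h := dispersed_poly (fun _ : Fin 1 => (Polynomial.X : Polynomial ℝ)) (fun b hb => by
    have hb0 : b 0 ≠ 0 := by
      intro h0
      apply hb
      funext i
      rw [Subsingleton.elim i 0, h0]
      rfl
    rw [Fin.sum_univ_one, Polynomial.natDegree_smul _ (by exact_mod_cast hb0), Polynomial.natDegree_X]
    exact one_pos)
  simpa using h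

/-- one variable: there are good arguments -/
lemma AlongD.exists_one {r : ℕ} {w : Fin r → List (Lr 1)} {P : ℝ → (Fin 1 → ℕ) → Prop} (h : AlongD w P)
    (hmono : ∀ B B' s, B ≤ B' → P B' s → P B s) (B : ℝ) : ∃ s : Fin 1 → ℕ, 2 ≤ s 0 ∧ P B s := by
  obtain ⟨K, hK⟩ := h 2 _ dispersed_id
  obtain ⟨N0, hN0⟩ := hK (1 + |B|)
  by_contra hcon
  push Not at hcon
  set N := N0 + K + 2 with hN
  have h1 := hN0 N (by omega) 0
  have hB : B ≤ (1 + |B|) ^ N := by
    refine (le_abs_self B).trans ((by linarith [abs_nonneg B] : |B| ≤ 1 + |B|).trans ?_)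
    exact le_self_pow₀ (by linarith [abs_nonneg B]) (by omega)
  have h2 : ((Finset.Icc N (2 * N) : Finset ℕ) : Set ℕ) ⊆
      {n : ℕ | ∃ s ∈ Range w 2 N, (∀ j, |(s j : ℝ) - (fun (_ : Fin 1) (n : ℕ) => (n : ℝ)) j n| ≤ ((0 : ℕ) : ℝ)) ∧
        ¬ P ((1 + |B|) ^ N) s} := by
    intro n hn
    rw [Finset.mem_coe, Finset.mem_Icc] at hn
    have hn2 : 2 ≤ n := by omega
    refine ⟨fun _ => n, ⟨fun j => ⟨hn2, hn.2⟩, fun i => largeFirst_of (fun j => hn.1) _⟩, fun j => by simp,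
      fun hP => ?_⟩
    exact hcon (fun _ => n) (by omega) (hmono _ _ _ hB hP)
  have h3 := (Set.encard_le_encard h2).trans h1
  rw [Set.encard_coe_eq_coe_finsetCard, Nat.card_Icc] at h3
  have h4 : 2 * N + 1 - N ≤ K * (0 + 1) := by exact_mod_cast h3
  omega

end Pool.Agent.U553.HY
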